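import Mathlib

set_option autoImplicit false

namespace Pool.Agent.H323.Even

/-- number of copies of the even tree `E_k` in the even tree `E_n` (for `k ≥ 1`) -/
def e (k n : ℕ) : ℕ :=
  if k = 1 then n
  else if _h2 : n ≤ 1 then 0
  else e k ((n+1)/2) + e k (n/2) +
    (if k % 2 = 0 then e (k/2) ((n+1)/2) * e (k/2) (n/2)
      else e (k/2+1) ((n+1)/2) * e (k/2) (n/2) + e (k/2) ((n+1)/2) * e (k/2+1) (n/2))
termination_by n
decreasing_by all_goals omega

lemma e_one (n : ℕ) : e 1 n = n := by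
  rw [e]; simp

lemma e_small {k n : ℕ} (hk : k ≠ 1) (hn : n ≤ 1) : e k n = 0 := by
  rw [e]; simp [hk, hn]

lemma e_zero_right {k : ℕ} : e k 0 = 0 := by
  rcases eq_or_ne k 1 with rfl | h
  · exact e_one 0
  · exact e_small h (by norm_num)

lemma e_rec {k n : ℕ} (hk : k ≠ 1) (hn : 2 ≤ n) : e k n = e k ((n+1)/2) + e k (n/2) +
    (if k % 2 = 0 then e (k/2) ((n+1)/2) * e (k/2) (n/2)
      else e (k/2+1) ((n+1)/2) * e (k/2) (n/2) + e (k/2) ((n+1)/2) * e (k/2+1) (n/2)) := by
  have h1 : ¬ (n ≤ 1) := by omega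
  conv_lhs => rw [e]
  simp only [hk, h1, if_false, dite_false]

lemma r1 (m j : ℕ) : e (2*m) (2*j) = 2 * e (2*m) j + e m j ^ 2 := by
  rcases Nat.eq_zero_or_pos j with rfl | hj
  · simp [e_zero_right]
  · rw [e_rec (by omega) (by omega)]
    have h1 : (2*j+1)/2 = j := by omega
    have h2 : 2*j/2 = j := by omega
    have h3 : 2*m % 2 = 0 := by omega
    have h4 : 2*m/2 = m := by omega
    rw [h1, h2, h4]; simp only [h3, if_true]; ring

lemma r2 (m j : ℕ) (hm : 1 ≤ m) :
    e (2*m) (2*j+1) = e (2*m) j + e (2*m) (j+1) + e m j * e m (j+1) := by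
  rcases Nat.eq_zero_or_pos j with rfl | hj
  · have h1 : e (2*m) 1 = 0 := e_small (by omega) (by norm_num)
    simp [e_zero_right, h1]
  · rw [e_rec (by omega) (by omega)]
    have h1 : (2*j+1+1)/2 = j+1 := by omega
    have h2 : (2*j+1)/2 = j := by omega
    have h3 : 2*m % 2 = 0 := by omega
    have h4 : 2*m/2 = m := by omega
    rw [h1, h2, h4]; simp only [h3, if_true]; ring

lemma r3 (m j : ℕ) (hm : 1 ≤ m) :
    e (2*m+1) (2*j) = 2 * e (2*m+1) j + 2 * (e m j * e (m+1) j) := by
  rcases Nat.eq_zero_or_pos j with rfl | hj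
  · simp [e_zero_right]
  · rw [e_rec (by omega) (by omega)]
    have h1 : (2*j+1)/2 = j := by omega
    have h2 : 2*j/2 = j := by omega
    have h3 : ¬ ((2*m+1) % 2 = 0) := by omega
    have h4 : (2*m+1)/2 = m := by omega
    rw [h1, h2, h4]; simp only [h3, if_false]; ring

lemma r4 (m j : ℕ) (hm : 1 ≤ m) :
    e (2*m+1) (2*j+1) = e (2*m+1) j + e (2*m+1) (j+1) + (e m j * e (m+1) (j+1)
      + e (m+1) j * e m (j+1)) := by
  rcases Nat.eq_zero_or_pos j with rfl | hj
  · have h1 : e (2*m+1) 1 = 0 := e_small (by omega) (by norm_num)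
    simp [e_zero_right, h1]
  · rw [e_rec (by omega) (by omega)]
    have h1 : (2*j+1+1)/2 = j+1 := by omega
    have h2 : (2*j+1)/2 = j := by omega
    have h3 : ¬ ((2*m+1) % 2 = 0) := by omega
    have h4 : (2*m+1)/2 = m := by omega
    rw [h1, h2, h4]; simp only [h3, if_false]; ring

/-- real version -/
noncomputable def E (k n : ℕ) : ℝ := (e k n : ℝ)

/-- increments -/
noncomputable def G (k n : ℕ) : ℝ := E k (n+1) - E k n

lemma E_nonneg (k n : ℕ) : 0 ≤ E k n := Nat.cast_nonneg _

lemma E_one (n : ℕ) : E 1 n = n := by simp [E, e_one]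
lemma E_zero (k : ℕ) : E k 0 = 0 := by simp [E, e_zero_right]
lemma E_at_one {k : ℕ} (hk : k ≠ 1) : E k 1 = 0 := by simp [E, e_small hk le_rfl]

lemma E_succ (k n : ℕ) : E k (n+1) = E k n + G k n := by simp [G]

lemma R1 (m j : ℕ) : E (2*m) (2*j) = 2 * E (2*m) j + E m j ^ 2 := by
  simp only [E]; rw [r1]; push_cast; ring
lemma R2 (m j : ℕ) (hm : 1 ≤ m) :
    E (2*m) (2*j+1) = E (2*m) j + E (2*m) (j+1) + E m j * E m (j+1) := by
  simp only [E]; rw [r2 m j hm]; push_cast; ring
lemma R3 (m j : ℕ) (hm : 1 ≤ m) :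
    E (2*m+1) (2*j) = 2 * E (2*m+1) j + 2 * (E m j * E (m+1) j) := by
  simp only [E]; rw [r3 m j hm]; push_cast; ring
lemma R4 (m j : ℕ) (hm : 1 ≤ m) :
    E (2*m+1) (2*j+1) = E (2*m+1) j + E (2*m+1) (j+1) + (E m j * E (m+1) (j+1)
      + E (m+1) j * E m (j+1)) := by
  simp only [E]; rw [r4 m j hm]; push_cast; ring

lemma G1 (m j : ℕ) (hm : 1 ≤ m) : G (2*m) (2*j) = G (2*m) j + E m j * G m j := by
  unfold G; rw [R2 m j hm, R1]; ring
lemma G2 (m j : ℕ) (hm : 1 ≤ m) : G (2*m) (2*j+1) = G (2*m) j + E m (j+1) * G m j := by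
  unfold G
  rw [show 2*j+1+1 = 2*(j+1) by ring, R1, R2 m j hm]; ring
lemma G3 (m j : ℕ) (hm : 1 ≤ m) :
    G (2*m+1) (2*j) = G (2*m+1) j + (E (m+1) j * G m j + E m j * G (m+1) j) := by
  unfold G; rw [R4 m j hm, R3 m j hm]; ring
lemma G4 (m j : ℕ) (hm : 1 ≤ m) :
    G (2*m+1) (2*j+1) = G (2*m+1) j + (E (m+1) (j+1) * G m j + E m (j+1) * G (m+1) j) := by
  unfold G
  rw [show 2*j+1+1 = 2*(j+1) by ring, R3 m (j+1) hm, R4 m j hm]; ring

lemma G_one (n : ℕ) : G 1 n = 1 := by simp [G, E_one]

lemma G_nonneg : ∀ n k : ℕ, 1 ≤ k → 0 ≤ G k n := by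
  intro n
  induction n using Nat.strong_induction_on with
  | _ n ih =>
    intro k hk
    rcases Nat.lt_or_ge n 1 with hn | hn
    · have : n = 0 := by omega
      subst this
      simp [G, E_zero]
      exact E_nonneg _ _
    rcases Nat.lt_or_ge k 2 with h2 | h2
    · have : k = 1 := by omega
      subst this; rw [G_one]; norm_num
    obtain ⟨j, hj | hj⟩ : ∃ j, n = 2*j ∨ n = 2*j+1 := ⟨n/2, by omega⟩ <;>
    obtain ⟨m, hm | hm⟩ : ∃ m, k = 2*m ∨ k = 2*m+1 := ⟨k/2, by omega⟩ <;>
    subst hj <;> subst hm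
    · rw [G1 m j (by omega)]
      have := ih j (by omega) (2*m) (by omega)
      have := ih j (by omega) m (by omega)
      have := E_nonneg m j
      positivity
    · rw [G3 m j (by omega)]
      have := ih j (by omega) (2*m+1) (by omega)
      have := ih j (by omega) m (by omega)
      have := ih j (by omega) (m+1) (by omega)
      have := E_nonneg m j
      have := E_nonneg (m+1) j
      positivity
    · rw [G2 m j (by omega)]
      have := ih j (by omega) (2*m) (by omega)
      have := ih j (by omega) m (by omega)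
      have := E_nonneg m (j+1)
      positivity
    · rw [G4 m j (by omega)]
      have := ih j (by omega) (2*m+1) (by omega)
      have := ih j (by omega) m (by omega)
      have := ih j (by omega) (m+1) (by omega)
      have := E_nonneg m (j+1)
      have := E_nonneg (m+1) (j+1)
      positivity

lemma E_mono {k : ℕ} (hk : 1 ≤ k) : Monotone (E k) := by
  apply monotone_nat_of_le_succ
  intro n
  have := G_nonneg n k hk
  unfold G at this; linarith

/-- explicit `E 2` and `E 3` -/
lemma E_two : ∀ n : ℕ, E 2 n = n * (n - 1) / 2 := by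
  intro n
  induction n using Nat.strong_induction_on with
  | _ n ih =>
    rcases Nat.lt_or_ge n 2 with hn | hn
    · interval_cases n
      · simp [E_zero]
      · simp [E_at_one]
    obtain ⟨j, hj | hj⟩ : ∃ j, n = 2*j ∨ n = 2*j+1 := ⟨n/2, by omega⟩ <;> subst hj
    · have h := R1 1 j
      norm_num at h
      rw [h, ih j (by omega), E_one]; push_cast; ring
    · have h := R2 1 j le_rfl
      norm_num at h
      rw [h, ih j (by omega), ih (j+1) (by omega), E_one, E_one]; push_cast; ring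

lemma E_three : ∀ n : ℕ, E 3 n = n * (n - 1) * (n - 2) / 6 := by
  intro n
  induction n using Nat.strong_induction_on with
  | _ n ih =>
    rcases Nat.lt_or_ge n 2 with hn | hn
    · interval_cases n
      · simp [E_zero]
      · simp [E_at_one]
    obtain ⟨j, hj | hj⟩ : ∃ j, n = 2*j ∨ n = 2*j+1 := ⟨n/2, by omega⟩ <;> subst hj
    · have h := R3 1 j le_rfl
      norm_num at h
      rw [h, ih j (by omega), E_one, E_two]; push_cast; ring
    · have h := R4 1 j le_rfl
      norm_num at h
      rw [h, ih j (by omega), ih (j+1) (by omega), E_one, E_one, E_two, E_two]; push_cast; ring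

lemma G_two (n : ℕ) : G 2 n = n := by
  unfold G; rw [E_two, E_two]; push_cast; ring
lemma G_three (n : ℕ) : G 3 n = n * (n - 1) / 2 := by
  unfold G; rw [E_three, E_three]; push_cast; ring

/-! ### growth -/

def B (k : ℕ) : ℕ := if _h : k ≤ 6 then 2 ^ (k-1) else 1 + B ((k+1)/2) * B (k/2)
termination_by k
decreasing_by all_goals omega

lemma B_small {k : ℕ} (hk : k ≤ 6) : B k = 2 ^ (k-1) := by rw [B]; simp [hk]
lemma B_even {m : ℕ} (hm : 4 ≤ m) : B (2*m) = 1 + B m * B m := by
  rw [B]
  have h1 : ¬ (2*m ≤ 6) := by omega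
  have h2 : (2*m+1)/2 = m := by omega
  have h3 : 2*m/2 = m := by omega
  simp only [h1, dite_false, h2, h3]
lemma B_odd {m : ℕ} (hm : 3 ≤ m) : B (2*m+1) = 1 + B (m+1) * B m := by
  rw [B]
  have h1 : ¬ (2*m+1 ≤ 6) := by omega
  have h2 : (2*m+1+1)/2 = m+1 := by omega
  have h3 : (2*m+1)/2 = m := by omega
  simp only [h1, dite_false, h2, h3]

lemma B_pos (k : ℕ) : 1 ≤ B k := by
  rw [B]; split_ifs
  · exact Nat.one_le_two_pow
  · omega

/-- real version of `B` -/
noncomputable def b (k : ℕ) : ℝ := (B k : ℝ)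

lemma b_ge (k : ℕ) : 1 ≤ b k := by
  unfold b; exact_mod_cast B_pos k

/-- the total increment of the split terms -/
noncomputable def T (k n : ℕ) : ℝ :=
  if k % 2 = 0 then E (k/2) n * G (k/2) n
  else E (k/2+1) n * G (k/2) n + E (k/2) n * G (k/2+1) n

lemma T_even (m n : ℕ) : T (2*m) n = E m n * G m n := by
  unfold T
  have h3 : 2*m % 2 = 0 := by omega
  have h4 : 2*m/2 = m := by omega
  rw [h4]; simp only [h3, if_true]
lemma T_odd (m n : ℕ) : T (2*m+1) n = E (m+1) n * G m n + E m n * G (m+1) n := by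
  unfold T
  have h3 : ¬ ((2*m+1) % 2 = 0) := by omega
  have h4 : (2*m+1)/2 = m := by omega
  rw [h4]; simp only [h3, if_false]

def Q (k : ℕ) : Prop := ∀ n, (b k - 1) * G k n ≤ T k n

lemma Q_two : Q 2 := by
  intro n
  have h1 : b 2 = 2 := by unfold b; rw [B_small (by norm_num)]; norm_num
  rw [h1, show (2:ℕ) = 2*1 by norm_num, T_even, show 2*1 = 2 by norm_num, G_two, E_one, G_one]
  linarith

lemma Q_three : Q 3 := by
  intro n
  have h1 : b 3 = 4 := by unfold b; rw [B_small (by norm_num)]; norm_num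
  rw [h1]
  have h2 := T_odd 1 n
  norm_num at h2
  rw [h2, G_three, E_two, E_one, G_one, G_two]
  have : (0:ℝ) ≤ n := Nat.cast_nonneg _
  nlinarith [sq_nonneg (n:ℝ)]

lemma nat_cases {P : ℕ → Prop} (h0 : P 0) (hs : ∀ n, 1 ≤ n → P n) : ∀ n, P n := by
  intro n
  rcases Nat.eq_zero_or_pos n with rfl | h
  · exact h0
  · exact hs n h

lemma G_at_zero {k : ℕ} (hk : k ≠ 1) : G k 0 = 0 := by
  unfold G; rw [E_zero, zero_add, E_at_one hk]; ring

lemma Q_four : Q 4 := by
  intro n
  have h1 : b 4 = 8 := by unfold b; rw [B_small (by norm_num)]; norm_num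
  have hT : ∀ n, T 4 n = n ^ 2 * (n - 1) / 2 := by
    intro n
    have h2 := T_even 2 n
    norm_num at h2
    rw [h2, E_two, G_two]; ring
  rw [h1]
  induction n using Nat.strong_induction_on with
  | _ n ih =>
    rcases Nat.lt_or_ge n 1 with hn | hn
    · have : n = 0 := by omega
      subst this
      rw [G_at_zero (by norm_num), hT]; norm_num
    obtain ⟨j, hj | hj⟩ : ∃ j, n = 2*j ∨ n = 2*j+1 := ⟨n/2, by omega⟩
    · subst hj
      have h3 := G1 2 j (by norm_num)
      norm_num at h3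
      have h4 := ih j (by omega)
      rw [hT, h3, E_two, G_two]
      rw [hT] at h4
      push_cast
      have hj : (1:ℝ) ≤ j := by exact_mod_cast (by omega : 1 ≤ j)
      nlinarith [mul_nonneg (sq_nonneg (j:ℝ)) (by linarith : (0:ℝ) ≤ j)]
    · subst hj
      have h3 := G2 2 j (by norm_num)
      norm_num at h3
      have h4 := ih j (by omega)
      rw [hT, h3, E_two, G_two]
      rw [hT] at h4
      push_cast
      have hj : (0:ℝ) ≤ j := Nat.cast_nonneg _
      nlinarith [mul_nonneg (sq_nonneg (j:ℝ)) (by linarith : (0:ℝ) ≤ j)]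

lemma T5 (n : ℕ) : T 5 n = n^2 * (n-1) * (5*n-7) / 12 := by
  have h2 := T_odd 2 n
  norm_num at h2
  rw [h2, E_two, G_two, E_three, G_three]; ring

lemma T6 (n : ℕ) : T 6 n = n^2 * (n-1)^2 * (n-2) / 12 := by
  have h2 := T_even 3 n
  norm_num at h2
  rw [h2, E_three, G_three]; ring

lemma Q_five : Q 5 := by
  intro n
  have h1 : b 5 = 16 := by unfold b; rw [B_small (by norm_num)]; norm_num
  rw [h1]
  induction n using Nat.strong_induction_on with
  | _ n ih =>
    rcases Nat.lt_or_ge n 1 with hn | hn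
    · have : n = 0 := by omega
      subst this
      rw [G_at_zero (by norm_num), T5]; norm_num
    obtain ⟨j, hj | hj⟩ : ∃ j, n = 2*j ∨ n = 2*j+1 := ⟨n/2, by omega⟩
    · subst hj
      have h3 := G3 2 j (by norm_num)
      norm_num at h3
      have h4 := ih j (by omega)
      rw [T5, h3, E_two, G_two, E_three, G_three]
      rw [T5] at h4
      push_cast
      have hj : (1:ℝ) ≤ j := by exact_mod_cast (by omega : 1 ≤ j)
      obtain ⟨i, hi⟩ : ∃ i : ℝ, (j:ℝ) = i + 1 := ⟨j - 1, by ring⟩
      have hi0 : 0 ≤ i := by linarith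
      rw [hi] at h4 ⊢
      have : 0 ≤ i^4 ∧ 0 ≤ i^3 ∧ 0 ≤ i^2 := ⟨by positivity, by positivity, by positivity⟩
      nlinarith [this.1, this.2.1, this.2.2]
    · subst hj
      have h3 := G4 2 j (by norm_num)
      norm_num at h3
      have h4 := ih j (by omega)
      rw [T5, h3, E_two, G_two, E_three, G_three]
      rw [T5] at h4
      push_cast
      rcases Nat.eq_zero_or_pos j with rfl | hj'
      · have : G 5 0 = 0 := G_at_zero (by norm_num)
        rw [this]; norm_num
      have hj : (1:ℝ) ≤ j := by exact_mod_cast hj'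
      obtain ⟨i, hi⟩ : ∃ i : ℝ, (j:ℝ) = i + 1 := ⟨j - 1, by ring⟩
      have hi0 : 0 ≤ i := by linarith
      rw [hi] at h4 ⊢
      have : 0 ≤ i^4 ∧ 0 ≤ i^3 ∧ 0 ≤ i^2 := ⟨by positivity, by positivity, by positivity⟩
      nlinarith [this.1, this.2.1, this.2.2]

lemma Q_six : Q 6 := by
  intro n
  have h1 : b 6 = 32 := by unfold b; rw [B_small (by norm_num)]; norm_num
  rw [h1]
  induction n using Nat.strong_induction_on with
  | _ n ih =>
    rcases Nat.lt_or_ge n 1 with hn | hn
    · have : n = 0 := by omega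
      subst this
      rw [G_at_zero (by norm_num), T6]; norm_num
    obtain ⟨j, hj | hj⟩ : ∃ j, n = 2*j ∨ n = 2*j+1 := ⟨n/2, by omega⟩
    · subst hj
      have h3 := G1 3 j (by norm_num)
      norm_num at h3
      have h4 := ih j (by omega)
      rw [T6, h3, E_three, G_three]
      rw [T6] at h4
      push_cast
      have hj : (1:ℝ) ≤ j := by exact_mod_cast (by omega : 1 ≤ j)
      obtain ⟨i, hi⟩ : ∃ i : ℝ, (j:ℝ) = i + 1 := ⟨j - 1, by ring⟩
      have hi0 : 0 ≤ i := by linarith
      rw [hi] at h4 ⊢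
      have : 0 ≤ i^4 ∧ 0 ≤ i^3 ∧ 0 ≤ i^2 := ⟨by positivity, by positivity, by positivity⟩
      nlinarith [this.1, this.2.1, this.2.2]
    · subst hj
      have h3 := G2 3 j (by norm_num)
      norm_num at h3
      have h4 := ih j (by omega)
      rw [T6, h3, E_three, G_three]
      rw [T6] at h4
      push_cast
      rcases Nat.eq_zero_or_pos j with rfl | hj'
      · have : G 6 0 = 0 := G_at_zero (by norm_num)
        rw [this]; norm_num
      have hj : (1:ℝ) ≤ j := by exact_mod_cast hj'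
      obtain ⟨i, hi⟩ : ∃ i : ℝ, (j:ℝ) = i + 1 := ⟨j - 1, by ring⟩
      have hi0 : 0 ≤ i := by linarith
      rw [hi] at h4 ⊢
      have : 0 ≤ i^5 ∧ 0 ≤ i^4 ∧ 0 ≤ i^3 ∧ 0 ≤ i^2 :=
        ⟨by positivity, by positivity, by positivity, by positivity⟩
      nlinarith [this.1, this.2.1, this.2.2.1, this.2.2.2]

/-- doubling bounds -/
structure D (k : ℕ) : Prop where
  d1 : ∀ j, 2 * b k * E k j ≤ E k (2*j)
  d2 : ∀ j, b k * G k j ≤ G k (2*j)
  d3 : ∀ j, b k * G k j ≤ G k (2*j+1)

lemma D.d4 {k : ℕ} (h : D k) (j : ℕ) : b k * (E k j + E k (j+1)) ≤ E k (2*j+1) := by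
  have h1 := h.d1 j
  have h2 := h.d2 j
  rw [E_succ, E_succ]; linarith

lemma D_one : D 1 := by
  have h1 : b 1 = 1 := by unfold b; rw [B_small (by norm_num)]; norm_num
  constructor
  · intro j; rw [h1, E_one, E_one]; push_cast; linarith
  · intro j; rw [h1, G_one, G_one]; norm_num
  · intro j; rw [h1, G_one, G_one]; norm_num

lemma Q_prod_even {m : ℕ} (hm : 1 ≤ m) (h : Q (2*m)) :
    ∀ j, 2 * (b (2*m) - 1) * E (2*m) j ≤ E m j ^ 2 := by
  intro j
  induction j with
  | zero => rw [E_zero, E_zero]; norm_num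
  | succ j ih =>
    rw [E_succ, E_succ]
    have h1 := h j
    rw [T_even] at h1
    nlinarith [sq_nonneg (G m j)]

lemma Q_prod_odd {m : ℕ} (hm : 1 ≤ m) (h : Q (2*m+1)) :
    ∀ j, (b (2*m+1) - 1) * E (2*m+1) j ≤ E m j * E (m+1) j := by
  intro j
  induction j with
  | zero => rw [E_zero, E_zero]; norm_num
  | succ j ih =>
    rw [E_succ, E_succ, E_succ]
    have h1 := h j
    rw [T_odd] at h1
    nlinarith [mul_nonneg (G_nonneg j m hm) (G_nonneg j (m+1) (by omega))]

lemma D_of_Q {k : ℕ} (hk : 2 ≤ k) (h : Q k) : D k := by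
  obtain ⟨m, hm | hm⟩ : ∃ m, k = 2*m ∨ k = 2*m+1 := ⟨k/2, by omega⟩
  · subst hm
    have hm : 1 ≤ m := by omega
    constructor
    · intro j; rw [R1]; have := Q_prod_even hm h j; linarith
    · intro j; rw [G1 m j hm]; have := h j; rw [T_even] at this; linarith
    · intro j; rw [G2 m j hm]; have := h j; rw [T_even] at this
      rw [E_succ]
      nlinarith [mul_nonneg (G_nonneg j m hm) (G_nonneg j m hm)]
  · subst hm
    have hm : 1 ≤ m := by omega
    constructor
    · intro j; rw [R3 m j hm]; have := Q_prod_odd hm h j; linarith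
    · intro j; rw [G3 m j hm]; have := h j; rw [T_odd] at this; linarith
    · intro j; rw [G4 m j hm]; have := h j; rw [T_odd] at this
      rw [E_succ, E_succ]
      nlinarith [mul_nonneg (G_nonneg j m hm) (G_nonneg j (m+1) (by omega))]

lemma Q_even_step {m : ℕ} (hm : 4 ≤ m) (h : D m) : Q (2*m) := by
  intro n
  have hb : b (2*m) - 1 = b m * b m := by
    unfold b; rw [B_even hm]; push_cast; ring
  rw [hb]
  have hb1 := b_ge m
  have hM : 1 ≤ b m * b m := by nlinarith
  induction n using Nat.strong_induction_on with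
  | _ n ih =>
    rcases Nat.lt_or_ge n 1 with hn | hn
    · have : n = 0 := by omega
      subst this
      rw [G_at_zero (by omega), T_even, E_zero]; simp
    obtain ⟨j, hj | hj⟩ : ∃ j, n = 2*j ∨ n = 2*j+1 := ⟨n/2, by omega⟩
    · subst hj
      have h0 := ih j (by omega)
      rw [T_even] at h0 ⊢
      rw [G1 m j (by omega)]
      have hE := E_nonneg m j
      have hG := G_nonneg j m (by omega)
      have h1 := h.d1 j
      have h2 := h.d2 j
      have h3 : (2 * b m * E m j) * (b m * G m j) ≤ E m (2*j) * G m (2*j) :=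
        mul_le_mul h1 h2 (by positivity) (E_nonneg _ _)
      nlinarith [mul_nonneg hE hG]
    · subst hj
      rcases Nat.eq_zero_or_pos j with rfl | hj'
      · have h5 : G (2*m) (2*0+1) = G (2*m) 0 + E m (0+1) * G m 0 := G2 m 0 (by omega)
        rw [h5, T_even, G_at_zero (by omega), G_at_zero (k := m) (by omega)]
        have := E_nonneg m (2*0+1)
        have := G_nonneg (2*0+1) m (by omega)
        simp only [mul_zero, add_zero]
        positivity
      have h0 := ih j (by omega)
      rw [T_even] at h0 ⊢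
      rw [G2 m j (by omega)]
      have hE := E_nonneg m j
      have hE1 := E_nonneg m (j+1)
      have hG := G_nonneg j m (by omega)
      have h1 := h.d4 j
      have h2 := h.d3 j
      have h3 : (b m * (E m j + E m (j+1))) * (b m * G m j) ≤ E m (2*j+1) * G m (2*j+1) :=
        mul_le_mul h1 h2 (by positivity) (E_nonneg _ _)
      rw [E_succ m j] at h3 ⊢
      nlinarith [mul_nonneg hE hG, mul_nonneg hG hG]

lemma Q_odd_step {m : ℕ} (hm : 3 ≤ m) (h : D m) (h' : D (m+1)) : Q (2*m+1) := by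
  intro n
  have hb : b (2*m+1) - 1 = b (m+1) * b m := by
    unfold b; rw [B_odd hm]; push_cast; ring
  rw [hb]
  have hb1 := b_ge m
  have hb1' := b_ge (m+1)
  have hM : 1 ≤ b (m+1) * b m := by nlinarith
  induction n using Nat.strong_induction_on with
  | _ n ih =>
    rcases Nat.lt_or_ge n 1 with hn | hn
    · have : n = 0 := by omega
      subst this
      rw [G_at_zero (by omega), T_odd, E_zero, E_zero]; simp
    obtain ⟨j, hj | hj⟩ : ∃ j, n = 2*j ∨ n = 2*j+1 := ⟨n/2, by omega⟩
    · subst hj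
      have h0 := ih j (by omega)
      rw [T_odd] at h0 ⊢
      rw [G3 m j (by omega)]
      have hE := E_nonneg m j
      have hG := G_nonneg j m (by omega)
      have hE' := E_nonneg (m+1) j
      have hG' := G_nonneg j (m+1) (by omega)
      have h3 : (2 * b (m+1) * E (m+1) j) * (b m * G m j) ≤ E (m+1) (2*j) * G m (2*j) :=
        mul_le_mul (h'.d1 j) (h.d2 j) (by positivity) (E_nonneg _ _)
      have h4 : (2 * b m * E m j) * (b (m+1) * G (m+1) j) ≤ E m (2*j) * G (m+1) (2*j) :=
        mul_le_mul (h.d1 j) (h'.d2 j) (by positivity) (E_nonneg _ _)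
      nlinarith [mul_nonneg hE hG', mul_nonneg hE' hG]
    · subst hj
      have h0 : b (m+1) * b m * G (2*m+1) j ≤ T (2*m+1) j := ih j (by omega)
      rw [T_odd] at h0 ⊢
      rw [G4 m j (by omega)]
      have hE := E_nonneg m j
      have hG := G_nonneg j m (by omega)
      have hE' := E_nonneg (m+1) j
      have hG' := G_nonneg j (m+1) (by omega)
      have hE1 := E_nonneg m (j+1)
      have hE1' := E_nonneg (m+1) (j+1)
      have h3 : (b (m+1) * (E (m+1) j + E (m+1) (j+1))) * (b m * G m j)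
          ≤ E (m+1) (2*j+1) * G m (2*j+1) :=
        mul_le_mul (h'.d4 j) (h.d3 j) (by positivity) (E_nonneg _ _)
      have h4 : (b m * (E m j + E m (j+1))) * (b (m+1) * G (m+1) j)
          ≤ E m (2*j+1) * G (m+1) (2*j+1) :=
        mul_le_mul (h.d4 j) (h'.d3 j) (by positivity) (E_nonneg _ _)
      rw [E_succ m j] at h4 ⊢
      rw [E_succ (m+1) j] at h3 ⊢
      nlinarith [mul_nonneg hE hG', mul_nonneg hE' hG, mul_nonneg hG hG']

lemma Q_all : ∀ k, 2 ≤ k → Q k := by
  intro k
  induction k using Nat.strong_induction_on with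
  | _ k ih =>
    intro hk
    rcases Nat.lt_or_ge k 7 with h7 | h7
    · interval_cases k
      · exact Q_two
      · exact Q_three
      · exact Q_four
      · exact Q_five
      · exact Q_six
    · obtain ⟨m, hm | hm⟩ : ∃ m, k = 2*m ∨ k = 2*m+1 := ⟨k/2, by omega⟩
      · subst hm
        exact Q_even_step (by omega) (D_of_Q (by omega) (ih m (by omega) (by omega)))
      · subst hm
        exact Q_odd_step (by omega) (D_of_Q (by omega) (ih m (by omega) (by omega)))
          (D_of_Q (by omega) (ih (m+1) (by omega) (by omega)))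

lemma D_all {k : ℕ} (hk : 1 ≤ k) : D k := by
  rcases Nat.lt_or_ge k 2 with h | h
  · have : k = 1 := by omega
    subst this; exact D_one
  · exact D_of_Q h (Q_all k h)

end Pool.Agent.H323.Even
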