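import Mathlib
import Pool.Agent.H323.EvenNum

set_option autoImplicit false

namespace Pool.Agent.H323.Even

/-- `Hk κ m` : `κ · G m · E (m+1) ≤ G (m+1) · E m` pointwise. -/
def HK (κ : ℝ) (m : ℕ) : Prop := ∀ n, κ * (G m n * E (m+1) n) ≤ G (m+1) n * E m n

lemma HK.mono {κ κ' : ℝ} {m : ℕ} (hm : 1 ≤ m) (h : HK κ m) (hk : κ' ≤ κ) : HK κ' m := by
  intro n
  have h1 := h n
  have h2 : 0 ≤ G m n * E (m+1) n := mul_nonneg (G_nonneg n m hm) (E_nonneg _ _)
  nlinarith

lemma G_ge_succ_even {m : ℕ} (hm : 1 ≤ m) (j : ℕ) :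
    (b (2*m) - 1) * G (2*m) (2*j) ≤ b (2*m) * (E m j * G m j) := by
  have := Q_all (2*m) (by omega) j
  rw [T_even] at this
  rw [G1 m j hm]; linarith

lemma G_ge_succ_even' {m : ℕ} (hm : 1 ≤ m) (j : ℕ) :
    (b (2*m) - 1) * G (2*m) (2*j+1) ≤ b (2*m) * (E m (j+1) * G m j) := by
  have h := Q_all (2*m) (by omega) j
  rw [T_even] at h
  rw [G2 m j hm, E_succ]
  have := mul_nonneg (G_nonneg j m hm) (G_nonneg j m hm)
  nlinarith

lemma G_ge_succ_odd {m : ℕ} (hm : 1 ≤ m) (j : ℕ) :
    (b (2*m+1) - 1) * G (2*m+1) (2*j) ≤ b (2*m+1) * (E (m+1) j * G m j + E m j * G (m+1) j) := by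
  have := Q_all (2*m+1) (by omega) j
  rw [T_odd] at this
  rw [G3 m j hm]; linarith

lemma G_ge_succ_odd' {m : ℕ} (hm : 1 ≤ m) (j : ℕ) :
    (b (2*m+1) - 1) * G (2*m+1) (2*j+1)
      ≤ b (2*m+1) * (E (m+1) (j+1) * G m j + E m (j+1) * G (m+1) j) := by
  have h := Q_all (2*m+1) (by omega) j
  rw [T_odd] at h
  rw [G4 m j hm, E_succ, E_succ]
  have := mul_nonneg (G_nonneg j m hm) (G_nonneg j (m+1) (by omega))
  nlinarith

lemma E_le_S_even {m : ℕ} (hm : 1 ≤ m) (j : ℕ) :
    (b (2*m) - 1) * E (2*m) (2*j) ≤ b (2*m) * (E m j ^ 2) := by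
  have := Q_prod_even hm (Q_all (2*m) (by omega)) j
  rw [R1]; linarith

lemma E_le_S_even' {m : ℕ} (hm : 1 ≤ m) (j : ℕ) :
    (b (2*m) - 1) * E (2*m) (2*j+1) ≤ b (2*m) * (E m j * E m (j+1)) := by
  have h := (D_all (k := 2*m) (by omega)).d4 j
  rw [R2 m j hm] at h ⊢
  linarith

lemma E_le_S_odd {m : ℕ} (hm : 1 ≤ m) (j : ℕ) :
    (b (2*m+1) - 1) * E (2*m+1) (2*j) ≤ b (2*m+1) * (2 * (E m j * E (m+1) j)) := by
  have := Q_prod_odd hm (Q_all (2*m+1) (by omega)) j
  rw [R3 m j hm]; linarith

lemma E_le_S_odd' {m : ℕ} (hm : 1 ≤ m) (j : ℕ) :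
    (b (2*m+1) - 1) * E (2*m+1) (2*j+1) ≤ b (2*m+1) * (E m j * E (m+1) (j+1)
      + E (m+1) j * E m (j+1)) := by
  have h := (D_all (k := 2*m+1) (by omega)).d4 j
  rw [R4 m j hm] at h ⊢
  linarith

/-- combination lemma -/
lemma combine {κ κ' c c' g Δ S' e' g' e Δ' S : ℝ}
    (hκ : 0 ≤ κ) (hc : 1 < c) (hc' : 1 < c')
    (_hg : 0 ≤ g) (he' : 0 ≤ e') (hΔ : 0 ≤ Δ) (hS' : 0 ≤ S') (hΔ' : 0 ≤ Δ') (hS : 0 ≤ S)
    (h1 : (c - 1) * g ≤ c * Δ) (h2 : (c' - 1) * e' ≤ c' * S')
    (h3 : Δ' ≤ g') (h4 : S ≤ e)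
    (h5 : 2 * κ * (Δ * S') ≤ (1 + κ) * (Δ' * S))
    (hnum : κ' * (c * c') * (1 + κ) ≤ 2 * κ * ((c - 1) * (c' - 1))) (hκ' : 0 ≤ κ') :
    κ' * (g * e') ≤ g' * e := by
  have hc1 : 0 < c - 1 := by linarith
  have hc1' : 0 < c' - 1 := by linarith
  have h6 : ((c - 1) * g) * ((c' - 1) * e') ≤ (c * Δ) * (c' * S') :=
    mul_le_mul h1 h2 (by positivity) (by positivity)
  have h7 : Δ' * S ≤ g' * e := mul_le_mul h3 h4 hS (le_trans hΔ' h3)
  have hX : 0 < (c - 1) * (c' - 1) := by positivity
  have h8 : (1 + κ) * ((c - 1) * (c' - 1)) * (κ' * (g * e'))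
      ≤ (1 + κ) * ((c - 1) * (c' - 1)) * (g' * e) := by
    calc (1 + κ) * ((c - 1) * (c' - 1)) * (κ' * (g * e'))
        = (κ' * (1 + κ)) * (((c - 1) * g) * ((c' - 1) * e')) := by ring
      _ ≤ (κ' * (1 + κ)) * ((c * Δ) * (c' * S')) :=
          mul_le_mul_of_nonneg_left h6 (by positivity)
      _ = (κ' * (c * c') * (1 + κ)) * (Δ * S') := by ring
      _ ≤ (2 * κ * ((c - 1) * (c' - 1))) * (Δ * S') :=
          mul_le_mul_of_nonneg_right hnum (by positivity)
      _ = ((c - 1) * (c' - 1)) * (2 * κ * (Δ * S')) := by ring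
      _ ≤ ((c - 1) * (c' - 1)) * ((1 + κ) * (Δ' * S)) :=
          mul_le_mul_of_nonneg_left h5 hX.le
      _ ≤ ((c - 1) * (c' - 1)) * ((1 + κ) * (g' * e)) := by
          apply mul_le_mul_of_nonneg_left _ hX.le
          exact mul_le_mul_of_nonneg_left h7 (by linarith)
      _ = _ := by ring
  exact le_of_mul_le_mul_left h8 (by positivity)

lemma b_gt_one {k : ℕ} (hk : 2 ≤ k) : 1 < b k := by
  unfold b
  have : 2 ≤ B k := by
    rcases Nat.lt_or_ge k 7 with h | h
    · rw [B_small (by omega)]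
      calc 2 = 2^1 := by norm_num
        _ ≤ 2^(k-1) := Nat.pow_le_pow_right (by norm_num) (by omega)
    · obtain ⟨m, hm | hm⟩ : ∃ m, k = 2*m ∨ k = 2*m+1 := ⟨k/2, by omega⟩
      · subst hm; rw [B_even (by omega)]
        nlinarith [B_pos m]
      · subst hm; rw [B_odd (by omega)]
        nlinarith [B_pos m, B_pos (m+1)]
  exact_mod_cast this

lemma HK_step_even {m : ℕ} (hm : 1 ≤ m) {κ κ' : ℝ} (hκ : 1 ≤ κ) (hκ' : 0 ≤ κ') (h : HK κ m)
    (hnum : κ' * (b (2*m) * b (2*m+1)) * (1 + κ) ≤ 2 * κ * ((b (2*m) - 1) * (b (2*m+1) - 1))) :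
    HK κ' (2*m) := by
  intro n
  obtain ⟨j, hj | hj⟩ : ∃ j, n = 2*j ∨ n = 2*j+1 := ⟨n/2, by omega⟩
  · subst hj
    have h0 := h j
    have he := E_nonneg m j
    have he' := E_nonneg (m+1) j
    have hg := G_nonneg j m hm
    have hg' := G_nonneg j (m+1) (by omega)
    refine combine (κ := κ) (c := b (2*m)) (c' := b (2*m+1)) (Δ := E m j * G m j)
      (S' := 2 * (E m j * E (m+1) j)) (Δ' := E (m+1) j * G m j + E m j * G (m+1) j)
      (S := E m j ^ 2)
      (by linarith) (b_gt_one (by omega)) (b_gt_one (by omega))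
      (G_nonneg _ _ (by omega)) (E_nonneg _ _) (by positivity) (by positivity) (by positivity)
      (by positivity) (G_ge_succ_even hm j) (E_le_S_odd hm j) ?_ ?_ ?_ hnum hκ'
    · rw [G3 m j hm]; have := G_nonneg j (2*m+1) (by omega); linarith
    · rw [R1]; have := E_nonneg (2*m) j; linarith
    · have hX : 0 ≤ G m j * E (m+1) j := by positivity
      set X := G m j * E (m+1) j with hXd
      set Y := G (m+1) j * E m j with hYd
      have e1 : 2 * κ * (E m j * G m j * (2 * (E m j * E (m+1) j))) = E m j ^ 2 * (4 * κ * X) := by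
        rw [hXd]; ring
      have e2 : (1 + κ) * ((E (m+1) j * G m j + E m j * G (m+1) j) * E m j ^ 2)
          = E m j ^ 2 * ((1 + κ) * (X + Y)) := by
        rw [hXd, hYd]; ring
      rw [e1, e2]
      apply mul_le_mul_of_nonneg_left _ (by positivity)
      nlinarith [mul_nonneg (sq_nonneg (κ - 1)) hX]
  · subst hj
    have h0 := h j
    have he := E_nonneg m j
    have he' := E_nonneg (m+1) j
    have hg := G_nonneg j m hm
    have hg' := G_nonneg j (m+1) (by omega)
    have he1 := E_nonneg m (j+1)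
    have he1' := E_nonneg (m+1) (j+1)
    refine combine (κ := κ) (c := b (2*m)) (c' := b (2*m+1)) (Δ := E m (j+1) * G m j)
      (S' := E m j * E (m+1) (j+1) + E (m+1) j * E m (j+1))
      (Δ' := E (m+1) (j+1) * G m j + E m (j+1) * G (m+1) j)
      (S := E m j * E m (j+1))
      (by linarith) (b_gt_one (by omega)) (b_gt_one (by omega))
      (G_nonneg _ _ (by omega)) (E_nonneg _ _) (by positivity) (by positivity) (by positivity)
      (by positivity) (G_ge_succ_even' hm j) (E_le_S_odd' hm j) ?_ ?_ ?_ hnum hκ'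
    · rw [G4 m j hm]; have := G_nonneg j (2*m+1) (by omega); linarith
    · rw [R2 m j hm]; have := E_nonneg (2*m) j; have := E_nonneg (2*m) (j+1); linarith
    · have hX : 0 ≤ G m j * E (m+1) j := by positivity
      set X := G m j * E (m+1) j with hXd
      set Y := G (m+1) j * E m j with hYd
      have e1 : 2 * κ * (E m (j+1) * G m j * (E m j * E (m+1) (j+1) + E (m+1) j * E m (j+1)))
          = E m (j+1) * (2 * κ * (2 * E m j * X + G m j * (X + Y))) := by
        rw [hXd, hYd]; simp only [E_succ]; ring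
      have e2 : (1 + κ) * ((E (m+1) (j+1) * G m j + E m (j+1) * G (m+1) j)
            * (E m j * E m (j+1)))
          = E m (j+1) * ((1 + κ) * (E m j * (X + Y) + 2 * G m j * Y)) := by
        rw [hXd, hYd]; simp only [E_succ]; ring
      rw [e1, e2]
      apply mul_le_mul_of_nonneg_left _ (by positivity)
      have a1 : 4 * κ * X ≤ (1 + κ) * (X + Y) := by
        nlinarith [mul_nonneg (sq_nonneg (κ - 1)) hX]
      have a2 : 2 * κ * (X + Y) ≤ (1 + κ) * (2 * Y) := by nlinarith
      nlinarith [mul_le_mul_of_nonneg_left a1 he, mul_le_mul_of_nonneg_left a2 hg]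

lemma HK_step_odd {m : ℕ} (hm : 1 ≤ m) {κ κ' : ℝ} (hκ : 1 ≤ κ) (hκ' : 0 ≤ κ') (h : HK κ m)
    (hnum : κ' * (b (2*m+1) * b (2*m+2)) * (1 + κ)
      ≤ 2 * κ * ((b (2*m+1) - 1) * (b (2*m+2) - 1))) :
    HK κ' (2*m+1) := by
  intro n
  obtain ⟨j, hj | hj⟩ : ∃ j, n = 2*j ∨ n = 2*j+1 := ⟨n/2, by omega⟩
  · subst hj
    have h0 := h j
    have he := E_nonneg m j
    have he' := E_nonneg (m+1) j
    have hg := G_nonneg j m hm
    have hg' := G_nonneg j (m+1) (by omega)
    have t1 := E_le_S_even (m := m+1) (by omega) j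
    refine combine (κ := κ) (c := b (2*m+1)) (c' := b (2*m+2))
      (Δ := E (m+1) j * G m j + E m j * G (m+1) j)
      (S' := E (m+1) j ^ 2) (Δ' := E (m+1) j * G (m+1) j)
      (S := 2 * (E m j * E (m+1) j))
      (by linarith) (b_gt_one (by omega)) (b_gt_one (by omega))
      (G_nonneg _ _ (by omega)) (E_nonneg _ _) (by positivity) (by positivity) (by positivity)
      (by positivity) (G_ge_succ_odd hm j) t1 ?_ ?_ ?_ hnum hκ'
    · have := G1 (m+1) j (by omega)
      rw [show 2*m+1+1 = 2*(m+1) by ring, this]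
      have := G_nonneg j (2*(m+1)) (by omega); linarith
    · rw [R3 m j hm]; have := E_nonneg (2*m+1) j; linarith
    · have hX : 0 ≤ G m j * E (m+1) j := by positivity
      set X := G m j * E (m+1) j with hXd
      set Y := G (m+1) j * E m j with hYd
      have e1 : 2 * κ * ((E (m+1) j * G m j + E m j * G (m+1) j) * E (m+1) j ^ 2)
          = E (m+1) j ^ 2 * (2 * κ * (X + Y)) := by
        rw [hXd, hYd]; ring
      have e2 : (1 + κ) * (E (m+1) j * G (m+1) j * (2 * (E m j * E (m+1) j)))
          = E (m+1) j ^ 2 * ((1 + κ) * (2 * Y)) := by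
        rw [hYd]; ring
      rw [e1, e2]
      apply mul_le_mul_of_nonneg_left _ (by positivity)
      nlinarith
  · subst hj
    have h0 := h j
    have he := E_nonneg m j
    have he' := E_nonneg (m+1) j
    have hg := G_nonneg j m hm
    have hg' := G_nonneg j (m+1) (by omega)
    have he1 := E_nonneg m (j+1)
    have he1' := E_nonneg (m+1) (j+1)
    have t1 := E_le_S_even' (m := m+1) (by omega) j
    refine combine (κ := κ) (c := b (2*m+1)) (c' := b (2*m+2))
      (Δ := E (m+1) (j+1) * G m j + E m (j+1) * G (m+1) j)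
      (S' := E (m+1) j * E (m+1) (j+1))
      (Δ' := E (m+1) (j+1) * G (m+1) j)
      (S := E m j * E (m+1) (j+1) + E (m+1) j * E m (j+1))
      (by linarith) (b_gt_one (by omega)) (b_gt_one (by omega))
      (G_nonneg _ _ (by omega)) (E_nonneg _ _) (by positivity) (by positivity) (by positivity)
      (by positivity) (G_ge_succ_odd' hm j) t1 ?_ ?_ ?_ hnum hκ'
    · have := G2 (m+1) j (by omega)
      rw [show 2*m+1+1 = 2*(m+1) by ring, this]
      have := G_nonneg j (2*(m+1)) (by omega); linarith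
    · rw [R4 m j hm]; have := E_nonneg (2*m+1) j; have := E_nonneg (2*m+1) (j+1); linarith
    · have hX : 0 ≤ G m j * E (m+1) j := by positivity
      set X := G m j * E (m+1) j with hXd
      set Y := G (m+1) j * E m j with hYd
      have e1 : 2 * κ * ((E (m+1) (j+1) * G m j + E m (j+1) * G (m+1) j)
            * (E (m+1) j * E (m+1) (j+1)))
          = E (m+1) (j+1) * (2 * κ * (E (m+1) j * (X + Y) + 2 * G (m+1) j * X)) := by
        rw [hXd, hYd]; simp only [E_succ]; ring
      have e2 : (1 + κ) * (E (m+1) (j+1) * G (m+1) j *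
            (E m j * E (m+1) (j+1) + E (m+1) j * E m (j+1)))
          = E (m+1) (j+1) * ((1 + κ) * (2 * E (m+1) j * Y + G (m+1) j * (X + Y))) := by
        rw [hXd, hYd]; simp only [E_succ]; ring
      rw [e1, e2]
      apply mul_le_mul_of_nonneg_left _ (by positivity)
      have a1 : 4 * κ * X ≤ (1 + κ) * (X + Y) := by
        nlinarith [mul_nonneg (sq_nonneg (κ - 1)) hX]
      have a2 : 2 * κ * (X + Y) ≤ (1 + κ) * (2 * Y) := by nlinarith
      nlinarith [mul_le_mul_of_nonneg_left a1 hg', mul_le_mul_of_nonneg_left a2 he']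

/-! base cases -/

lemma HK_one : HK 1 1 := by
  intro n
  rw [G_one, E_one]
  norm_num
  rw [E_two, G_two]
  have : (0:ℝ) ≤ n := Nat.cast_nonneg _
  nlinarith

lemma HK_two : HK (3/2) 2 := by
  intro n
  norm_num
  rw [E_two, G_two, E_three, G_three]
  rcases Nat.eq_zero_or_pos n with rfl | hn
  · norm_num
  have h1 : (1:ℝ) ≤ n := by exact_mod_cast hn
  have h2 : 0 ≤ (n:ℝ)^2 * (n-1) := mul_nonneg (sq_nonneg _) (by linarith)
  nlinarith

lemma L4 (n : ℕ) : 4 * E 4 n ≤ (n - 2) * G 4 n := by
  induction n using Nat.strong_induction_on with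
  | _ n ih =>
    rcases Nat.lt_or_ge n 1 with hn | hn
    · have : n = 0 := by omega
      subst this
      rw [E_zero, G_at_zero (by norm_num)]; norm_num
    obtain ⟨j, hj | hj⟩ : ∃ j, n = 2*j ∨ n = 2*j+1 := ⟨n/2, by omega⟩
    · subst hj
      have h3 := G1 2 j (by norm_num)
      have h4 := R1 2 j
      norm_num at h3 h4
      have h5 := ih j (by omega)
      rw [h3, h4, E_two, G_two]
      push_cast
      have hG := G_nonneg j 4 (by norm_num)
      nlinarith
    · subst hj
      rcases Nat.eq_zero_or_pos j with rfl | hj'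
      · rw [show 2*0+1 = 1 by norm_num, E_at_one (by norm_num)]
        have : G 4 1 = 0 := by
          have h3 := G2 2 0 (by norm_num)
          norm_num at h3
          rw [h3, G_two, G_at_zero (by norm_num)]; norm_num
        rw [this]; norm_num
      have h3 := G2 2 j (by norm_num)
      have h4 := R2 2 j (by norm_num)
      norm_num at h3 h4
      have h5 := ih j (by omega)
      have h6 := Q_four j
      have h7 : b 4 = 8 := by unfold b; rw [B_small (by norm_num)]; norm_num
      have h8 := T_even 2 j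
      norm_num at h8
      rw [h7, h8, E_two, G_two] at h6
      rw [h3, h4, E_succ 4 j, E_two, G_two, E_two]
      push_cast
      have hG := G_nonneg j 4 (by norm_num)
      have hj1 : (1:ℝ) ≤ j := by exact_mod_cast hj'
      nlinarith [mul_nonneg (sq_nonneg (j:ℝ)) (by linarith : (0:ℝ) ≤ j)]

lemma U4 (n : ℕ) : (n - 3) * G 4 n ≤ 4 * E 4 n := by
  induction n using Nat.strong_induction_on with
  | _ n ih =>
    rcases Nat.lt_or_ge n 1 with hn | hn
    · have : n = 0 := by omega
      subst this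
      rw [E_zero, G_at_zero (by norm_num)]; norm_num
    obtain ⟨j, hj | hj⟩ : ∃ j, n = 2*j ∨ n = 2*j+1 := ⟨n/2, by omega⟩
    · subst hj
      have h3 := G1 2 j (by norm_num)
      have h4 := R1 2 j
      norm_num at h3 h4
      have h5 := ih j (by omega)
      have h6 := Q_four j
      have h7 : b 4 = 8 := by unfold b; rw [B_small (by norm_num)]; norm_num
      have h8 := T_even 2 j
      norm_num at h8
      rw [h7, h8, E_two, G_two] at h6
      rw [h3, h4, E_two, G_two]
      push_cast
      have hG := G_nonneg j 4 (by norm_num)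
      nlinarith
    · subst hj
      have h3 := G2 2 j (by norm_num)
      have h4 := R2 2 j (by norm_num)
      norm_num at h3 h4
      have h5 := ih j (by omega)
      rw [h3, h4, E_succ 4 j, E_two, G_two, E_two]
      push_cast
      have hG := G_nonneg j 4 (by norm_num)
      nlinarith

lemma L5 (n : ℕ) : 5 * E 5 n ≤ (n - 3) * G 5 n := by
  induction n using Nat.strong_induction_on with
  | _ n ih =>
    rcases Nat.lt_or_ge n 1 with hn | hn
    · have : n = 0 := by omega
      subst this
      rw [E_zero, G_at_zero (by norm_num)]; norm_num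
    obtain ⟨j, hj | hj⟩ : ∃ j, n = 2*j ∨ n = 2*j+1 := ⟨n/2, by omega⟩
    · subst hj
      have h3 := G3 2 j (by norm_num)
      have h4 := R3 2 j (by norm_num)
      norm_num at h3 h4
      have h5 := ih j (by omega)
      rw [h3, h4, E_two, G_two, E_three, G_three]
      push_cast
      have hG := G_nonneg j 5 (by norm_num)
      have hj1 : (1:ℝ) ≤ j := by exact_mod_cast (by omega : 1 ≤ j)
      obtain ⟨i, hi⟩ : ∃ i : ℝ, (j:ℝ) = i + 1 := ⟨j - 1, by ring⟩
      have hi0 : 0 ≤ i := by linarith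
      rw [hi] at h5 ⊢
      have : 0 ≤ i^4 ∧ 0 ≤ i^3 ∧ 0 ≤ i^2 := ⟨by positivity, by positivity, by positivity⟩
      nlinarith [this.1, this.2.1, this.2.2]
    · subst hj
      rcases Nat.eq_zero_or_pos j with rfl | hj'
      · rw [show 2*0+1 = 1 by norm_num, E_at_one (by norm_num)]
        have : G 5 1 = 0 := by
          have h3 := G4 2 0 (by norm_num)
          norm_num at h3
          rw [h3, G_two, G_three, G_at_zero (by norm_num), E_three]; norm_num
        rw [this]; norm_num
      have h3 := G4 2 j (by norm_num)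
      have h4 := R4 2 j (by norm_num)
      norm_num at h3 h4
      have h5 := ih j (by omega)
      have h6 := Q_five j
      have h7 : b 5 = 16 := by unfold b; rw [B_small (by norm_num)]; norm_num
      rw [h7, T5] at h6
      rw [h3, h4, E_succ 5 j, E_two, G_two, E_two, E_three, E_three, G_three]
      push_cast
      have hG := G_nonneg j 5 (by norm_num)
      have hj1 : (1:ℝ) ≤ j := by exact_mod_cast hj'
      obtain ⟨i, hi⟩ : ∃ i : ℝ, (j:ℝ) = i + 1 := ⟨j - 1, by ring⟩
      have hi0 : 0 ≤ i := by linarith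
      rw [hi] at h5 h6 ⊢
      have : 0 ≤ i^4 ∧ 0 ≤ i^3 ∧ 0 ≤ i^2 := ⟨by positivity, by positivity, by positivity⟩
      nlinarith [this.1, this.2.1, this.2.2]

lemma HK_three : HK (4/3) 3 := by
  intro n
  have h1 := L4 n
  have h2 := G_nonneg n 3 (by norm_num)
  have h3 : E 3 n = (n - 2) * G 3 n / 3 := by rw [E_three, G_three]; ring
  norm_num
  rw [h3]
  nlinarith [mul_le_mul_of_nonneg_left h1 h2]

lemma HK_four : HK (5/4) 4 := by
  intro n
  have h1 := U4 n
  have h2 := L5 n
  have h3 := G_nonneg n 4 (by norm_num)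
  have h4 := G_nonneg n 5 (by norm_num)
  norm_num
  nlinarith [mul_le_mul_of_nonneg_left h1 h4, mul_le_mul_of_nonneg_left h2 h3]

lemma B1 : B 1 = 1 := by rw [B_small (by norm_num)]; norm_num
lemma B2 : B 2 = 2 := by rw [B_small (by norm_num)]; norm_num
lemma B3 : B 3 = 4 := by rw [B_small (by norm_num)]; norm_num
lemma B4 : B 4 = 8 := by rw [B_small (by norm_num)]; norm_num
lemma B5 : B 5 = 16 := by rw [B_small (by norm_num)]; norm_num
lemma B6 : B 6 = 32 := by rw [B_small (by norm_num)]; norm_num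
lemma B7 : B 7 = 33 := by
  have := B_odd (m := 3) (by norm_num); norm_num at this; rw [this, B4, B3]
lemma B8 : B 8 = 65 := by
  have := B_even (m := 4) (by norm_num); norm_num at this; rw [this, B4]
lemma B9 : B 9 = 129 := by
  have := B_odd (m := 4) (by norm_num); norm_num at this; rw [this, B5, B4]
lemma B10 : B 10 = 257 := by
  have := B_even (m := 5) (by norm_num); norm_num at this; rw [this, B5]
lemma B11 : B 11 = 513 := by
  have := B_odd (m := 5) (by norm_num); norm_num at this; rw [this, B6, B5]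
lemma B12 : B 12 = 1025 := by
  have := B_even (m := 6) (by norm_num); norm_num at this; rw [this, B6]
lemma B13 : B 13 = 1057 := by
  have := B_odd (m := 6) (by norm_num); norm_num at this; rw [this, B7, B6]
lemma B14 : B 14 = 1090 := by
  have := B_even (m := 7) (by norm_num); norm_num at this; rw [this, B7]
lemma B15 : B 15 = 2146 := by
  have := B_odd (m := 7) (by norm_num); norm_num at this; rw [this, B8, B7]
lemma B16 : B 16 = 4226 := by
  have := B_even (m := 8) (by norm_num); norm_num at this; rw [this, B8]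
lemma B17 : B 17 = 8386 := by
  have := B_odd (m := 8) (by norm_num); norm_num at this; rw [this, B9, B8]
lemma B18 : B 18 = 16642 := by
  have := B_even (m := 9) (by norm_num); norm_num at this; rw [this, B9]
lemma B19 : B 19 = 33154 := by
  have := B_odd (m := 9) (by norm_num); norm_num at this; rw [this, B10, B9]

lemma B_big : ∀ k, 10 ≤ k → 2 * k ^ 2 ≤ B k := by
  intro k
  induction k using Nat.strong_induction_on with
  | _ k ih =>
    intro hk
    rcases Nat.lt_or_ge k 20 with h | h
    · interval_cases k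
      · rw [B10]; norm_num
      · rw [B11]; norm_num
      · rw [B12]; norm_num
      · rw [B13]; norm_num
      · rw [B14]; norm_num
      · rw [B15]; norm_num
      · rw [B16]; norm_num
      · rw [B17]; norm_num
      · rw [B18]; norm_num
      · rw [B19]; norm_num
    · obtain ⟨m, hm | hm⟩ : ∃ m, k = 2*m ∨ k = 2*m+1 := ⟨k/2, by omega⟩
      · subst hm
        rw [B_even (by omega)]
        have h1 := ih m (by omega) (by omega)
        have h2 : 10 ≤ m := by omega
        have h3 : 10 * 10 ≤ m * m := Nat.mul_le_mul h2 h2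
        nlinarith [Nat.mul_le_mul h1 h1]
      · subst hm
        rw [B_odd (by omega)]
        have h1 := ih m (by omega) (by omega)
        have h1' := ih (m+1) (by omega) (by omega)
        have h2 : 10 ≤ m := by omega
        have h3 : 10 * 10 ≤ m * m := Nat.mul_le_mul h2 h2
        have h4 : 2 * m ^ 2 ≤ B (m+1) := le_trans (by nlinarith) h1'
        nlinarith [Nat.mul_le_mul h4 h1]

lemma numcond {m c c' : ℝ} (hm : 5 ≤ m) (hc : 8 * m ^ 2 ≤ c) (hc' : 8 * m ^ 2 ≤ c') :
    (4 * m ^ 2 / (4 * m ^ 2 - 1)) * (c * c') * (1 + m ^ 2 / (m ^ 2 - 1))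
      ≤ 2 * (m ^ 2 / (m ^ 2 - 1)) * ((c - 1) * (c' - 1)) := by
  have h1 : 0 < m ^ 2 - 1 := by nlinarith
  have h2 : 0 < 4 * m ^ 2 - 1 := by nlinarith
  have hm2 : 0 < m ^ 2 := by positivity
  have e1 : (4 * m ^ 2 / (4 * m ^ 2 - 1)) * (c * c') * (1 + m ^ 2 / (m ^ 2 - 1))
      = (2 * m ^ 2 / ((4 * m ^ 2 - 1) * (m ^ 2 - 1))) * (2 * (2 * m ^ 2 - 1) * (c * c')) := by
    field_simp; ring
  have e2 : 2 * (m ^ 2 / (m ^ 2 - 1)) * ((c - 1) * (c' - 1))
      = (2 * m ^ 2 / ((4 * m ^ 2 - 1) * (m ^ 2 - 1))) * ((4 * m ^ 2 - 1) * ((c - 1) * (c' - 1))) := by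
    have h1' : m ^ 2 - 1 ≠ 0 := h1.ne'
    have h2' : 4 * m ^ 2 - 1 ≠ 0 := h2.ne'
    rw [div_mul_eq_mul_div, mul_comm 2 (m ^ 2 / (m ^ 2 - 1)), div_mul_eq_mul_div, div_mul_eq_mul_div,
      div_eq_div_iff h1' (mul_ne_zero h2' h1')]
    ring
  rw [e1, e2]
  apply mul_le_mul_of_nonneg_left _ (by positivity)
  have h3 : 4 * m ^ 2 * (c + c') ≤ c * c' := by nlinarith
  nlinarith

lemma HK_ge5 : ∀ k : ℕ, 5 ≤ k → HK ((k:ℝ) ^ 2 / ((k:ℝ) ^ 2 - 1)) k := by
  intro k
  induction k using Nat.strong_induction_on with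
  | _ k ih =>
    intro hk
    have bs : b 5 = 16 ∧ b 6 = 32 ∧ b 7 = 33 ∧ b 8 = 65 ∧ b 9 = 129 ∧ b 10 = 257 := by
      refine ⟨?_, ?_, ?_, ?_, ?_, ?_⟩ <;> unfold b
      · rw [B5]; norm_num
      · rw [B6]; norm_num
      · rw [B7]; norm_num
      · rw [B8]; norm_num
      · rw [B9]; norm_num
      · rw [B10]; norm_num
    obtain ⟨b5, b6, b7, b8, b9, b10⟩ := bs
    rcases Nat.lt_or_ge k 10 with h | h
    · interval_cases k
      · have := HK_step_odd (m := 2) (by norm_num) (κ := 3/2) (κ' := 25/24) (by norm_num)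
          (by norm_num) HK_two (by norm_num; rw [b5, b6]; norm_num)
        norm_num at this ⊢
        exact this
      · have := HK_step_even (m := 3) (by norm_num) (κ := 4/3) (κ' := 36/35) (by norm_num)
          (by norm_num) HK_three (by norm_num; rw [b6, b7]; norm_num)
        norm_num at this ⊢
        exact this
      · have := HK_step_odd (m := 3) (by norm_num) (κ := 4/3) (κ' := 49/48) (by norm_num)
          (by norm_num) HK_three (by norm_num; rw [b7, b8]; norm_num)
        norm_num at this ⊢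
        exact this
      · have := HK_step_even (m := 4) (by norm_num) (κ := 5/4) (κ' := 64/63) (by norm_num)
          (by norm_num) HK_four (by norm_num; rw [b8, b9]; norm_num)
        norm_num at this ⊢
        exact this
      · have := HK_step_odd (m := 4) (by norm_num) (κ := 5/4) (κ' := 81/80) (by norm_num)
          (by norm_num) HK_four (by norm_num; rw [b9, b10]; norm_num)
        norm_num at this ⊢
        exact this
    · obtain ⟨m, hm | hm⟩ : ∃ m, k = 2*m ∨ k = 2*m+1 := ⟨k/2, by omega⟩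
      · subst hm
        have hm5 : (5:ℝ) ≤ m := by exact_mod_cast (by omega : 5 ≤ m)
        have hb : ∀ i, 2*m ≤ i → 8 * (m:ℝ)^2 ≤ b i := by
          intro i hi
          have h1 := B_big i (by omega)
          have h2 : (2*m)^2 ≤ i^2 := Nat.pow_le_pow_left hi 2
          have h3 : 8 * m^2 ≤ B i := by nlinarith
          unfold b; exact_mod_cast h3
        have h0 : 1 ≤ (m:ℝ)^2 / ((m:ℝ)^2 - 1) := by
          rw [le_div_iff₀ (by nlinarith)]; linarith
        have h1 : 0 ≤ 4 * (m:ℝ)^2 / (4 * (m:ℝ)^2 - 1) := by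
          apply div_nonneg (by positivity) (by nlinarith)
        have := HK_step_even (m := m) (by omega) h0 h1 (ih m (by omega) (by omega))
          (numcond hm5 (hb _ le_rfl) (hb _ (by omega)))
        refine this.mono (by omega) ?_
        push_cast
        apply le_of_eq; congr 1 <;> ring
      · subst hm
        have hm5 : (5:ℝ) ≤ m := by exact_mod_cast (by omega : 5 ≤ m)
        have hb : ∀ i, 2*m ≤ i → 8 * (m:ℝ)^2 ≤ b i := by
          intro i hi
          have h1 := B_big i (by omega)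
          have h2 : (2*m)^2 ≤ i^2 := Nat.pow_le_pow_left hi 2
          have h3 : 8 * m^2 ≤ B i := by nlinarith
          unfold b; exact_mod_cast h3
        have h0 : 1 ≤ (m:ℝ)^2 / ((m:ℝ)^2 - 1) := by
          rw [le_div_iff₀ (by nlinarith)]; linarith
        have h1 : 0 ≤ 4 * (m:ℝ)^2 / (4 * (m:ℝ)^2 - 1) := by
          apply div_nonneg (by positivity) (by nlinarith)
        have := HK_step_odd (m := m) (by omega) h0 h1 (ih m (by omega) (by omega))
          (numcond hm5 (hb _ (by omega)) (hb _ (by omega)))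
        refine this.mono (by omega) ?_
        push_cast
        rw [div_le_div_iff₀ (by nlinarith) (by nlinarith)]
        nlinarith

/-- adjacent ratio monotonicity -/
lemma HK_all : ∀ k : ℕ, 1 ≤ k → HK 1 k := by
  intro k hk
  rcases Nat.lt_or_ge k 5 with h | h
  · interval_cases k
    · exact HK_one
    · exact HK_two.mono (by norm_num) (by norm_num)
    · exact HK_three.mono (by norm_num) (by norm_num)
    · exact HK_four.mono (by norm_num) (by norm_num)
  · refine (HK_ge5 k h).mono hk ?_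
    have h5 : (5:ℝ) ≤ k := by exact_mod_cast h
    rw [le_div_iff₀ (by nlinarith)]; linarith

lemma e_pos : ∀ n k : ℕ, 1 ≤ k → k ≤ n → 0 < e k n := by
  intro n
  induction n using Nat.strong_induction_on with
  | _ n ih =>
    intro k hk hkn
    rcases Nat.lt_or_ge k 2 with h2 | h2
    · have : k = 1 := by omega
      subst this; rw [e_one]; omega
    obtain ⟨j, hj | hj⟩ : ∃ j, n = 2*j ∨ n = 2*j+1 := ⟨n/2, by omega⟩ <;>
    obtain ⟨m, hm | hm⟩ : ∃ m, k = 2*m ∨ k = 2*m+1 := ⟨k/2, by omega⟩ <;>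
    subst hj <;> subst hm
    · rw [r1]
      have := ih j (by omega) m (by omega) (by omega)
      positivity
    · rw [r3 m j (by omega)]
      have := ih j (by omega) m (by omega) (by omega)
      have := ih j (by omega) (m+1) (by omega) (by omega)
      positivity
    · rw [r2 m j (by omega)]
      have := ih j (by omega) m (by omega) (by omega)
      have := ih (j+1) (by omega) m (by omega) (by omega)
      positivity
    · rw [r4 m j (by omega)]
      have := ih j (by omega) m (by omega) (by omega)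
      have := ih (j+1) (by omega) (m+1) (by omega) (by omega)
      positivity

lemma e_zero : ∀ n k : ℕ, 1 ≤ k → n < k → e k n = 0 := by
  intro n
  induction n using Nat.strong_induction_on with
  | _ n ih =>
    intro k hk hkn
    rcases Nat.lt_or_ge n 1 with hn | hn
    · have : n = 0 := by omega
      subst this; exact e_zero_right
    rcases Nat.lt_or_ge n 2 with hn2 | hn2
    · have : n = 1 := by omega
      subst this; exact e_small (by omega) le_rfl
    obtain ⟨j, hj | hj⟩ : ∃ j, n = 2*j ∨ n = 2*j+1 := ⟨n/2, by omega⟩ <;>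
    obtain ⟨m, hm | hm⟩ : ∃ m, k = 2*m ∨ k = 2*m+1 := ⟨k/2, by omega⟩ <;>
    subst hj <;> subst hm
    · rw [r1, ih j (by omega) (2*m) (by omega) (by omega), ih j (by omega) m (by omega) (by omega)]
      norm_num
    · rw [r3 m j (by omega), ih j (by omega) (2*m+1) (by omega) (by omega),
        ih j (by omega) (m+1) (by omega) (by omega)]
      norm_num
    · rw [r2 m j (by omega), ih j (by omega) (2*m) (by omega) (by omega),
        ih (j+1) (by omega) (2*m) (by omega) (by omega), ih j (by omega) m (by omega) (by omega)]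
      norm_num
    · rw [r4 m j (by omega), ih j (by omega) (2*m+1) (by omega) (by omega),
        ih (j+1) (by omega) (2*m+1) (by omega) (by omega),
        ih (j+1) (by omega) (m+1) (by omega) (by omega),
        ih j (by omega) (m+1) (by omega) (by omega)]
      norm_num

lemma E_pos {k n : ℕ} (hk : 1 ≤ k) (h : k ≤ n) : 0 < E k n := by
  unfold E; exact_mod_cast e_pos n k hk h
lemma E_eq_zero {k n : ℕ} (hk : 1 ≤ k) (h : n < k) : E k n = 0 := by
  unfold E; exact_mod_cast e_zero n k hk h

lemma ratio_adj {k : ℕ} (hk : 1 ≤ k) {n n' : ℕ} (hn : n ≤ n') :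
    E (k+1) n * E k n' ≤ E (k+1) n' * E k n := by
  rcases Nat.lt_or_ge n k with h | h
  · rw [E_eq_zero (by omega) (show n < k+1 by omega), E_eq_zero hk h]; simp
  induction n', hn using Nat.le_induction with
  | base => exact le_refl _
  | succ n' hn' ih =>
    have h1 := HK_all k hk n'
    have h2 : E (k+1) n' * E k (n'+1) ≤ E (k+1) (n'+1) * E k n' := by
      rw [E_succ, E_succ]; linarith
    have hp : 0 < E k n' := E_pos hk (by omega)
    have hp2 : 0 < E k n := E_pos hk (by omega)
    have hp3 : 0 ≤ E k (n'+1) := E_nonneg _ _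
    have h3 : E k n' * (E (k+1) n * E k (n'+1)) ≤ E k n' * (E (k+1) (n'+1) * E k n) := by
      calc E k n' * (E (k+1) n * E k (n'+1)) = (E (k+1) n * E k n') * E k (n'+1) := by ring
        _ ≤ (E (k+1) n' * E k n) * E k (n'+1) := mul_le_mul_of_nonneg_right ih hp3
        _ = (E (k+1) n' * E k (n'+1)) * E k n := by ring
        _ ≤ (E (k+1) (n'+1) * E k n') * E k n := mul_le_mul_of_nonneg_right h2 hp2.le
        _ = _ := by ring
    exact le_of_mul_le_mul_left h3 hp

lemma ratio {l k : ℕ} (hl : 1 ≤ l) (hlk : l ≤ k) {n n' : ℕ} (hn : n ≤ n') :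
    E k n * E l n' ≤ E k n' * E l n := by
  induction k, hlk using Nat.le_induction with
  | base => exact le_of_eq (mul_comm _ _)
  | succ k hk ih =>
    rcases Nat.lt_or_ge n (k+1) with h | h
    · rw [E_eq_zero (by omega) h, zero_mul]
      exact mul_nonneg (E_nonneg _ _) (E_nonneg _ _)
    have h1 := ratio_adj (k := k) (by omega) hn
    have hp1 : 0 < E k n := E_pos (by omega) (by omega)
    have hp2 : 0 < E k n' := E_pos (by omega) (by omega)
    have h3 : (E k n * E k n') * (E (k+1) n * E l n') ≤ (E k n * E k n') * (E (k+1) n' * E l n) := by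
      calc (E k n * E k n') * (E (k+1) n * E l n') = (E (k+1) n * E k n') * (E k n * E l n') := by
            ring
        _ ≤ (E (k+1) n' * E k n) * (E k n' * E l n) :=
            mul_le_mul h1 ih (mul_nonneg (E_nonneg _ _) (E_nonneg _ _))
              (mul_nonneg (E_nonneg _ _) (E_nonneg _ _))
        _ = _ := by ring
    exact le_of_mul_le_mul_left h3 (by positivity)

end Pool.Agent.H323.Even
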