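import Mathlib
import Pool.Agent.H323.EvenRatio

set_option autoImplicit false

namespace Pool.Agent.H323.Even

/-- split count of `E_k` between two even trees (zero for `k ≤ 1`) -/
noncomputable def SP (k : ℕ) (f h : ℕ → ℝ) : ℝ :=
  if k ≤ 1 then 0 else if k % 2 = 0 then f (k/2) * h (k/2)
  else f (k/2) * h (k/2+1) + f (k/2+1) * h (k/2)

lemma SP_one (f h : ℕ → ℝ) : SP 1 f h = 0 := by simp [SP]
lemma SP_even {m : ℕ} (hm : 1 ≤ m) (f h : ℕ → ℝ) : SP (2*m) f h = f m * h m := by
  unfold SP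
  have h1 : ¬ (2*m ≤ 1) := by omega
  have h3 : 2*m % 2 = 0 := by omega
  have h4 : 2*m/2 = m := by omega
  rw [h4]; simp only [h1, h3, if_true, if_false]
lemma SP_odd {m : ℕ} (hm : 1 ≤ m) (f h : ℕ → ℝ) :
    SP (2*m+1) f h = f m * h (m+1) + f (m+1) * h m := by
  unfold SP
  have h1 : ¬ (2*m+1 ≤ 1) := by omega
  have h3 : ¬ ((2*m+1) % 2 = 0) := by omega
  have h4 : (2*m+1)/2 = m := by omega
  rw [h4]; simp only [h1, h3, if_false]

/-- profile of `(E_a, E_b)` -/
noncomputable def N (a b k : ℕ) : ℝ := E k a + E k b + SP k (fun i => E i a) (fun i => E i b)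

lemma SP_comm (k : ℕ) (f h : ℕ → ℝ) : SP k f h = SP k h f := by
  unfold SP; split_ifs <;> ring

lemma N_comm (a b k : ℕ) : N a b k = N b a k := by
  unfold N; rw [SP_comm]; ring

lemma SP_mono {k : ℕ} {f f' h h' : ℕ → ℝ} (hf : ∀ i, 1 ≤ i → f i ≤ f' i)
    (hh : ∀ i, 1 ≤ i → h i ≤ h' i) (hf0 : ∀ i, 1 ≤ i → 0 ≤ f i) (hh0 : ∀ i, 1 ≤ i → 0 ≤ h i) :
    SP k f h ≤ SP k f' h' := by
  unfold SP
  split_ifs with h1 h2
  · exact le_refl _
  · have : 1 ≤ k/2 := by omega
    exact mul_le_mul (hf _ this) (hh _ this) (hh0 _ this) (le_trans (hf0 _ this) (hf _ this))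
  · have h3 : 1 ≤ k/2 := by omega
    have h4 : 1 ≤ k/2+1 := by omega
    exact add_le_add
      (mul_le_mul (hf _ h3) (hh _ h4) (hh0 _ h4) (le_trans (hf0 _ h3) (hf _ h3)))
      (mul_le_mul (hf _ h4) (hh _ h3) (hh0 _ h3) (le_trans (hf0 _ h4) (hf _ h4)))

lemma N_nonneg (a b k : ℕ) : 0 ≤ N a b k := by
  unfold N SP
  have h1 := E_nonneg k a
  have h2 := E_nonneg k b
  have h3 := E_nonneg (k/2) a
  have h4 := E_nonneg (k/2) b
  have h5 := E_nonneg (k/2+1) a
  have h6 := E_nonneg (k/2+1) b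
  split_ifs <;> positivity

lemma N_eq_even {k : ℕ} (hk : 1 ≤ k) (j : ℕ) : N j j k = E k (2*j) := by
  unfold N
  rcases Nat.lt_or_ge k 2 with h | h
  · have : k = 1 := by omega
    subst this; rw [SP_one, E_one, E_one]; push_cast; ring
  obtain ⟨m, hm | hm⟩ : ∃ m, k = 2*m ∨ k = 2*m+1 := ⟨k/2, by omega⟩
  · subst hm; rw [SP_even (by omega), R1]; ring
  · subst hm; rw [SP_odd (by omega), R3 m j (by omega)]; ring

lemma N_eq_odd {k : ℕ} (hk : 1 ≤ k) (j : ℕ) : N (j+1) j k = E k (2*j+1) := by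
  unfold N
  rcases Nat.lt_or_ge k 2 with h | h
  · have : k = 1 := by omega
    subst this; rw [SP_one, E_one, E_one, E_one]; push_cast; ring
  obtain ⟨m, hm | hm⟩ : ∃ m, k = 2*m ∨ k = 2*m+1 := ⟨k/2, by omega⟩
  · subst hm; rw [SP_even (by omega), R2 m j (by omega)]; ring
  · subst hm; rw [SP_odd (by omega), R4 m j (by omega)]; ring

lemma N_eq {k : ℕ} (hk : 1 ≤ k) (n : ℕ) : N ((n+1)/2) (n/2) k = E k n := by
  obtain ⟨j, hj | hj⟩ : ∃ j, n = 2*j ∨ n = 2*j+1 := ⟨n/2, by omega⟩
  · subst hj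
    rw [show (2*j+1)/2 = j by omega, show 2*j/2 = j by omega]; exact N_eq_even hk j
  · subst hj
    rw [show (2*j+1+1)/2 = j+1 by omega, show (2*j+1)/2 = j by omega]; exact N_eq_odd hk j

lemma swap_alg_even (x1 x2 x3 x4 s12 s34 s14 s23 : ℝ)
    (h : (x1+x2)*s34 + (x3+x4)*s12 + s12*s34 ≤ (x1+x4)*s23 + (x2+x3)*s14 + s14*s23) :
    x1*x2 + x3*x4 + (x1+x2+s12)*(x3+x4+s34) ≤ x1*x4 + x2*x3 + (x1+x4+s14)*(x2+x3+s23) := by
  nlinarith

lemma brk {l k : ℕ} (hl : 1 ≤ l) (hlk : l ≤ k) {n n' : ℕ} (hn : n ≤ n') :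
    0 ≤ E k n' * E l n - E k n * E l n' := by
  have := ratio hl hlk hn; linarith

lemma dm {k : ℕ} (hk : 1 ≤ k) {n n' : ℕ} (hn : n ≤ n') : 0 ≤ E k n' - E k n := by
  have := E_mono hk hn; linarith

/-- swap for even `k = 2m` (sizes `a1 ≥ a2 ≥ b1 ≥ b2`). -/
lemma swap_even {m : ℕ} (hm : 1 ≤ m) {a1 a2 b1 b2 : ℕ} (h12 : a2 ≤ a1) (h23 : b1 ≤ a2)
    (h34 : b2 ≤ b1) :
    N a1 a2 (2*m) + N b1 b2 (2*m) + SP (2*m) (N a1 a2) (N b1 b2)
      ≤ N a1 b2 (2*m) + N a2 b1 (2*m) + SP (2*m) (N a1 b2) (N a2 b1) := by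
  rw [SP_even hm, SP_even hm]
  have key : (E m a1 + E m a2) * SP m (fun i => E i b1) (fun i => E i b2)
      + (E m b1 + E m b2) * SP m (fun i => E i a1) (fun i => E i a2)
      + SP m (fun i => E i a1) (fun i => E i a2) * SP m (fun i => E i b1) (fun i => E i b2)
      ≤ (E m a1 + E m b2) * SP m (fun i => E i a2) (fun i => E i b1)
      + (E m a2 + E m b1) * SP m (fun i => E i a1) (fun i => E i b2)
      + SP m (fun i => E i a1) (fun i => E i b2) * SP m (fun i => E i a2) (fun i => E i b1) := by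
    rcases Nat.lt_or_ge m 2 with h | h
    · have : m = 1 := by omega
      subst this; simp only [SP_one]; linarith
    obtain ⟨u, hu | hu⟩ : ∃ u, m = 2*u ∨ m = 2*u+1 := ⟨m/2, by omega⟩
    · subst hu
      simp only [SP_even (show 1 ≤ u by omega)]
      have t1 := mul_nonneg (dm (k := u) (by omega) (show b2 ≤ a2 by omega))
        (brk (l := u) (k := 2*u) (by omega) (by omega) (show b1 ≤ a1 by omega))
      have t2 := mul_nonneg (dm (k := u) (by omega) (show b1 ≤ a1 by omega))
        (brk (l := u) (k := 2*u) (by omega) (by omega) (show b2 ≤ a2 by omega))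
      linarith
    · subst hu
      simp only [SP_odd (show 1 ≤ u by omega)]
      have t1 := mul_nonneg (dm (k := u+1) (by omega) (show b2 ≤ a2 by omega))
        (brk (l := u) (k := 2*u+1) (by omega) (by omega) (show b1 ≤ a1 by omega))
      have t2 := mul_nonneg (dm (k := u) (by omega) (show b2 ≤ a2 by omega))
        (brk (l := u+1) (k := 2*u+1) (by omega) (by omega) (show b1 ≤ a1 by omega))
      have t3 := mul_nonneg (dm (k := u+1) (by omega) (show b1 ≤ a1 by omega))
        (brk (l := u) (k := 2*u+1) (by omega) (by omega) (show b2 ≤ a2 by omega))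
      have t4 := mul_nonneg (dm (k := u) (by omega) (show b1 ≤ a1 by omega))
        (brk (l := u+1) (k := 2*u+1) (by omega) (by omega) (show b2 ≤ a2 by omega))
      have t5 := mul_nonneg (brk (l := u) (k := u+1) (by omega) (by omega) (show b1 ≤ a1 by omega))
        (brk (l := u) (k := u+1) (by omega) (by omega) (show b2 ≤ a2 by omega))
      linarith
  unfold N
  simp only [SP_even hm]
  linarith

/-- swap for odd `k = 2m+1`. -/
lemma swap_odd {m : ℕ} (hm : 1 ≤ m) {a1 a2 b1 b2 : ℕ} (h12 : a2 ≤ a1) (h23 : b1 ≤ a2)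
    (h34 : b2 ≤ b1) :
    N a1 a2 (2*m+1) + N b1 b2 (2*m+1) + SP (2*m+1) (N a1 a2) (N b1 b2)
      ≤ N a1 b2 (2*m+1) + N a2 b1 (2*m+1) + SP (2*m+1) (N a1 b2) (N a2 b1) := by
  rw [SP_odd hm, SP_odd hm]
  unfold N
  simp only [SP_odd hm]
  rcases Nat.lt_or_ge m 2 with h | h
  · have : m = 1 := by omega
    subst this
    have e2 : ∀ f h : ℕ → ℝ, SP (1+1) f h = f 1 * h 1 := fun f h => SP_even (m := 1) le_rfl f h
    simp only [SP_one, e2]
    linarith
  obtain ⟨u, hu | hu⟩ : ∃ u, m = 2*u ∨ m = 2*u+1 := ⟨m/2, by omega⟩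
  · subst hu
    simp only [SP_even (show 1 ≤ u by omega), SP_odd (show 1 ≤ u by omega)]
    have t1 := mul_nonneg (dm (k := u) (by omega) (show b2 ≤ a2 by omega))
      (brk (l := u+1) (k := 2*u) (by omega) (by omega) (show b1 ≤ a1 by omega))
    have t2 := mul_nonneg (dm (k := u+1) (by omega) (show b2 ≤ a2 by omega))
      (brk (l := u) (k := 2*u) (by omega) (by omega) (show b1 ≤ a1 by omega))
    have t3 := mul_nonneg (dm (k := u) (by omega) (show b1 ≤ a1 by omega))
      (brk (l := u+1) (k := 2*u) (by omega) (by omega) (show b2 ≤ a2 by omega))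
    have t4 := mul_nonneg (dm (k := u+1) (by omega) (show b1 ≤ a1 by omega))
      (brk (l := u) (k := 2*u) (by omega) (by omega) (show b2 ≤ a2 by omega))
    have t5 := mul_nonneg (dm (k := u) (by omega) (show b2 ≤ a2 by omega))
      (brk (l := u) (k := 2*u+1) (by omega) (by omega) (show b1 ≤ a1 by omega))
    have t6 := mul_nonneg (dm (k := u) (by omega) (show b1 ≤ a1 by omega))
      (brk (l := u) (k := 2*u+1) (by omega) (by omega) (show b2 ≤ a2 by omega))
    linarith
  · subst hu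
    have e2 : ∀ f h : ℕ → ℝ, SP (2*u+1+1) f h = f (u+1) * h (u+1) :=
      fun f h => SP_even (m := u+1) (by omega) f h
    simp only [e2, SP_odd (show 1 ≤ u by omega)]
    have t1 := mul_nonneg (dm (k := u+1) (by omega) (show b2 ≤ a2 by omega))
      (brk (l := u+1) (k := 2*u+1) (by omega) (by omega) (show b1 ≤ a1 by omega))
    have t2 := mul_nonneg (dm (k := u+1) (by omega) (show b1 ≤ a1 by omega))
      (brk (l := u+1) (k := 2*u+1) (by omega) (by omega) (show b2 ≤ a2 by omega))
    have t3 := mul_nonneg (dm (k := u) (by omega) (show b2 ≤ a2 by omega))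
      (brk (l := u+1) (k := 2*u+1+1) (by omega) (by omega) (show b1 ≤ a1 by omega))
    have t4 := mul_nonneg (dm (k := u+1) (by omega) (show b2 ≤ a2 by omega))
      (brk (l := u) (k := 2*u+1+1) (by omega) (by omega) (show b1 ≤ a1 by omega))
    have t5 := mul_nonneg (dm (k := u) (by omega) (show b1 ≤ a1 by omega))
      (brk (l := u+1) (k := 2*u+1+1) (by omega) (by omega) (show b2 ≤ a2 by omega))
    have t6 := mul_nonneg (dm (k := u+1) (by omega) (show b1 ≤ a1 by omega))
      (brk (l := u) (k := 2*u+1+1) (by omega) (by omega) (show b2 ≤ a2 by omega))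
    linarith

/-- The numerical theorem. -/
theorem N_le : ∀ n a b k : ℕ, a + b = n → 1 ≤ k → N a b k ≤ E k n := by
  intro n
  induction n using Nat.strong_induction_on with
  | _ n ih =>
    have main : ∀ a b k : ℕ, b ≤ a → a + b = n → 1 ≤ k → N a b k ≤ E k n := by
      intro a b k hab hn hk
      rcases Nat.lt_or_ge a (b+2) with h | h
      · rcases Nat.lt_or_ge b a with h' | h'
        · have : a = b + 1 := by omega
          subst this
          rw [N_eq_odd hk, show 2*b+1 = n by omega]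
        · have : a = b := by omega
          subst this
          rw [N_eq_even hk, show 2*a = n by omega]
      rcases Nat.eq_zero_or_pos b with rfl | hb
      · unfold N
        have h1 : SP k (fun i => E i a) (fun i => E i 0) = 0 := by
          unfold SP; simp [E_zero]
        rw [h1, E_zero]
        have : a = n := by omega
        rw [this]; linarith
      -- main case
      set a1 := (a+1)/2 with ha1
      set a2 := a/2 with ha2
      set b1 := (b+1)/2 with hb1
      set b2 := b/2 with hb2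
      have e1 : ∀ i, 1 ≤ i → E i a = N a1 a2 i := fun i hi => (N_eq hi a).symm
      have e2 : ∀ i, 1 ≤ i → E i b = N b1 b2 i := fun i hi => (N_eq hi b).symm
      have s1 : SP k (fun i => E i a) (fun i => E i b) = SP k (N a1 a2) (N b1 b2) := by
        apply le_antisymm
        · exact SP_mono (fun i hi => (e1 i hi).le) (fun i hi => (e2 i hi).le)
            (fun i _ => E_nonneg _ _) (fun i _ => E_nonneg _ _)
        · exact SP_mono (fun i hi => (e1 i hi).ge) (fun i hi => (e2 i hi).ge)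
            (fun i _ => N_nonneg _ _ _) (fun i _ => N_nonneg _ _ _)
      have s2 : N a b k = N a1 a2 k + N b1 b2 k + SP k (N a1 a2) (N b1 b2) := by
        conv_lhs => unfold N
        rw [e1 k hk, e2 k hk, s1]
      have s3 : N a1 a2 k + N b1 b2 k + SP k (N a1 a2) (N b1 b2)
          ≤ N a1 b2 k + N a2 b1 k + SP k (N a1 b2) (N a2 b1) := by
        rcases Nat.lt_or_ge k 2 with h2 | h2
        · have : k = 1 := by omega
          subst this
          unfold N
          simp only [SP_one, E_one]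
          linarith
        obtain ⟨m, hm | hm⟩ : ∃ m, k = 2*m ∨ k = 2*m+1 := ⟨k/2, by omega⟩
        · subst hm
          exact swap_even (by omega) (by omega) (by omega) (by omega)
        · subst hm
          exact swap_odd (by omega) (by omega) (by omega) (by omega)
      have s4 : N a1 b2 k + N a2 b1 k + SP k (N a1 b2) (N a2 b1) ≤ N (a1+b2) (a2+b1) k := by
        have f1 : ∀ i, 1 ≤ i → N a1 b2 i ≤ E i (a1+b2) :=
          fun i hi => ih (a1+b2) (by omega) a1 b2 i rfl hi
        have f2 : ∀ i, 1 ≤ i → N a2 b1 i ≤ E i (a2+b1) :=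
          fun i hi => ih (a2+b1) (by omega) a2 b1 i rfl hi
        have f3 : SP k (N a1 b2) (N a2 b1)
            ≤ SP k (fun i => E i (a1+b2)) (fun i => E i (a2+b1)) :=
          SP_mono f1 f2 (fun i _ => N_nonneg _ _ _) (fun i _ => N_nonneg _ _ _)
        have := f1 k hk
        have := f2 k hk
        conv_rhs => unfold N
        linarith
      have s5 : N (a1+b2) (a2+b1) k = E k n := by
        rcases lt_trichotomy (a1+b2) (a2+b1) with h3 | h3 | h3
        · have h4 : a2 + b1 = a1 + b2 + 1 := by omega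
          rw [N_comm, h4, N_eq_odd hk]; congr 1; omega
        · rw [h3, N_eq_even hk]; congr 1; omega
        · have h4 : a1 + b2 = a2 + b1 + 1 := by omega
          rw [h4, N_eq_odd hk]; congr 1; omega
      linarith
    intro a b k hn hk
    rcases Nat.le_total b a with h | h
    · exact main a b k h hn hk
    · rw [N_comm]; exact main b a k h (by omega) hk

end Pool.Agent.H323.Even
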