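import Mathlib
import Pool.Agent.H323.EvenSwap

set_option autoImplicit false

namespace Pool.Agent.H323.Even

/-- labelled binary trees -/
inductive LT (α : Type) where
  | leaf : α → LT α
  | node : LT α → LT α → LT α

namespace LT

variable {α β : Type} [DecidableEq α] [DecidableEq β]

def leaves : LT α → Finset α
  | leaf a => {a}
  | node l r => l.leaves ∪ r.leaves

def valid : LT α → Prop
  | leaf _ => True
  | node l r => Disjoint l.leaves r.leaves ∧ l.valid ∧ r.valid

def clusters : LT α → Finset (Finset α)
  | leaf a => {{a}}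
  | node l r => insert (l.leaves ∪ r.leaves) (l.clusters ∪ r.clusters)

/-- evenness of a labelled tree -/
def evT : LT α → Prop
  | leaf _ => True
  | node l r => l.leaves.card ≤ r.leaves.card + 1 ∧ r.leaves.card ≤ l.leaves.card + 1
      ∧ l.evT ∧ r.evT

def restr : LT α → Finset α → LT α
  | leaf a, _ => leaf a
  | node l r, L => if L ∩ l.leaves = ∅ then r.restr L else
      if L ∩ r.leaves = ∅ then l.restr L else node (l.restr L) (r.restr L)

lemma leaves_nonempty (t : LT α) : t.leaves.Nonempty := by
  induction t with
  | leaf a => exact Finset.singleton_nonempty a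
  | node l r ihl ihr => exact ihl.mono Finset.subset_union_left

lemma clusters_sub (t : LT α) : ∀ A ∈ t.clusters, A ⊆ t.leaves := by
  induction t with
  | leaf a => intro A hA; simp only [clusters, Finset.mem_singleton] at hA; rw [hA]; rfl
  | node l r ihl ihr =>
    intro A hA
    simp only [clusters, Finset.mem_insert, Finset.mem_union] at hA
    rcases hA with rfl | hA | hA
    · rfl
    · exact (ihl A hA).trans Finset.subset_union_left
    · exact (ihr A hA).trans Finset.subset_union_right

lemma clusters_nonempty (t : LT α) : ∀ A ∈ t.clusters, A.Nonempty := by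
  induction t with
  | leaf a =>
    intro A hA; simp only [clusters, Finset.mem_singleton] at hA; rw [hA]
    exact Finset.singleton_nonempty a
  | node l r ihl ihr =>
    intro A hA
    simp only [clusters, Finset.mem_insert, Finset.mem_union] at hA
    rcases hA with rfl | hA | hA
    · exact (leaves_nonempty l).mono Finset.subset_union_left
    · exact ihl A hA
    · exact ihr A hA

lemma leaves_mem (t : LT α) : t.leaves ∈ t.clusters := by
  cases t with
  | leaf a => simp [leaves, clusters]
  | node l r => simp [leaves, clusters]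

lemma restr_leaves (t : LT α) (L : Finset α) (h : (L ∩ t.leaves).Nonempty) :
    (t.restr L).leaves = L ∩ t.leaves := by
  induction t with
  | leaf a =>
    simp only [restr, leaves] at h ⊢
    obtain ⟨x, hx⟩ := h
    simp only [Finset.mem_inter, Finset.mem_singleton] at hx
    rw [Finset.inter_singleton_of_mem (hx.2 ▸ hx.1)]
  | node l r ihl ihr =>
    simp only [restr]
    simp only [leaves] at h ⊢
    rw [Finset.inter_union_distrib_left] at h ⊢
    split_ifs with h1 h2
    · rw [h1, Finset.empty_union] at h ⊢
      exact ihr h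
    · rw [h2, Finset.union_empty] at h ⊢
      exact ihl h
    · simp only [leaves]
      rw [ihl (Finset.nonempty_iff_ne_empty.mpr h1), ihr (Finset.nonempty_iff_ne_empty.mpr h2)]

lemma restr_valid (t : LT α) (L : Finset α) (h : (L ∩ t.leaves).Nonempty) (hv : t.valid) :
    (t.restr L).valid := by
  induction t with
  | leaf a => trivial
  | node l r ihl ihr =>
    simp only [restr]
    simp only [leaves] at h
    rw [Finset.inter_union_distrib_left] at h
    split_ifs with h1 h2
    · rw [h1, Finset.empty_union] at h
      exact ihr h hv.2.2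
    · rw [h2, Finset.union_empty] at h
      exact ihl h hv.2.1
    · have h1' := Finset.nonempty_iff_ne_empty.mpr h1
      have h2' := Finset.nonempty_iff_ne_empty.mpr h2
      refine ⟨?_, ihl h1' hv.2.1, ihr h2' hv.2.2⟩
      rw [restr_leaves l L h1', restr_leaves r L h2']
      exact hv.1.mono Finset.inter_subset_right Finset.inter_subset_right

lemma restr_clusters (t : LT α) (L : Finset α) (h : (L ∩ t.leaves).Nonempty) (B : Finset α) :
    B ∈ (t.restr L).clusters ↔ (B.Nonempty ∧ ∃ A ∈ t.clusters, B = A ∩ L) := by
  induction t with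
  | leaf a =>
    simp only [restr, clusters, Finset.mem_singleton, exists_eq_left]
    simp only [leaves] at h
    obtain ⟨x, hx⟩ := h
    simp only [Finset.mem_inter, Finset.mem_singleton] at hx
    have ha : a ∈ L := hx.2 ▸ hx.1
    rw [Finset.singleton_inter_of_mem ha]
    constructor
    · rintro rfl; exact ⟨Finset.singleton_nonempty a, rfl⟩
    · rintro ⟨_, h⟩; exact h
  | node l r ihl ihr =>
    simp only [restr]
    simp only [leaves] at h
    rw [Finset.inter_union_distrib_left] at h
    have hl : ∀ A ∈ l.clusters, L ∩ l.leaves = ∅ → A ∩ L = ∅ := by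
      intro A hA h1
      have := clusters_sub l A hA
      rw [Finset.inter_comm]
      exact Finset.subset_empty.mp (h1 ▸ Finset.inter_subset_inter_left this)
    have hr : ∀ A ∈ r.clusters, L ∩ r.leaves = ∅ → A ∩ L = ∅ := by
      intro A hA h1
      have := clusters_sub r A hA
      rw [Finset.inter_comm]
      exact Finset.subset_empty.mp (h1 ▸ Finset.inter_subset_inter_left this)
    split_ifs with h1 h2
    · rw [h1, Finset.empty_union] at h
      rw [ihr h]
      constructor
      · rintro ⟨hB, A, hA, rfl⟩
        exact ⟨hB, A, by simp [clusters, hA], rfl⟩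
      · rintro ⟨hB, A, hA, rfl⟩
        simp only [clusters, Finset.mem_insert, Finset.mem_union] at hA
        refine ⟨hB, ?_⟩
        rcases hA with rfl | hA | hA
        · refine ⟨r.leaves, leaves_mem r, ?_⟩
          rw [Finset.union_inter_distrib_right, Finset.inter_comm l.leaves L, h1,
            Finset.empty_union]
        · rw [hl A hA h1] at hB; exact absurd hB Finset.not_nonempty_empty
        · exact ⟨A, hA, rfl⟩
    · rw [h2, Finset.union_empty] at h
      rw [ihl h]
      constructor
      · rintro ⟨hB, A, hA, rfl⟩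
        exact ⟨hB, A, by simp [clusters, hA], rfl⟩
      · rintro ⟨hB, A, hA, rfl⟩
        simp only [clusters, Finset.mem_insert, Finset.mem_union] at hA
        refine ⟨hB, ?_⟩
        rcases hA with rfl | hA | hA
        · refine ⟨l.leaves, leaves_mem l, ?_⟩
          rw [Finset.union_inter_distrib_right, Finset.inter_comm r.leaves L, h2,
            Finset.union_empty]
        · exact ⟨A, hA, rfl⟩
        · rw [hr A hA h2] at hB; exact absurd hB Finset.not_nonempty_empty
    · have h1' := Finset.nonempty_iff_ne_empty.mpr h1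
      have h2' := Finset.nonempty_iff_ne_empty.mpr h2
      simp only [clusters, Finset.mem_insert, Finset.mem_union]
      rw [ihl h1', ihr h2', restr_leaves l L h1', restr_leaves r L h2']
      constructor
      · rintro (rfl | ⟨hB, A, hA, rfl⟩ | ⟨hB, A, hA, rfl⟩)
        · refine ⟨h1'.mono Finset.subset_union_left, _, Or.inl rfl, ?_⟩
          rw [Finset.union_inter_distrib_right, Finset.inter_comm l.leaves L,
            Finset.inter_comm r.leaves L]
        · exact ⟨hB, A, Or.inr (Or.inl hA), rfl⟩
        · exact ⟨hB, A, Or.inr (Or.inr hA), rfl⟩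
      · rintro ⟨hB, A, rfl | hA | hA, rfl⟩
        · left
          rw [Finset.union_inter_distrib_right, Finset.inter_comm l.leaves L,
            Finset.inter_comm r.leaves L]
        · exact Or.inr (Or.inl ⟨hB, A, hA, rfl⟩)
        · exact Or.inr (Or.inr ⟨hB, A, hA, rfl⟩)

/-- evenness of a cluster family -/
def IsEv (T : Finset (Finset α)) : Prop :=
  ∀ A ∈ T, ∀ B ∈ T, B ⊂ A → (∀ D ∈ T, B ⊆ D → D ⊆ A → D = B ∨ D = A) →
    A.card ≤ 2 * B.card + 1 ∧ 2 * B.card ≤ A.card + 1

lemma evT_of_isEv (t : LT α) (hv : t.valid) (h : IsEv t.clusters) : t.evT := by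
  induction t with
  | leaf a => trivial
  | node l r ihl ihr =>
    obtain ⟨hd, hvl, hvr⟩ := hv
    have hln := leaves_nonempty l
    have hrn := leaves_nonempty r
    -- a cluster of l is never a superset-type of r etc.
    have hnl : ∀ D : Finset α, D ⊆ r.leaves → D.Nonempty → ¬ D ⊆ l.leaves := by
      intro D hD hDn hDl
      obtain ⟨x, hx⟩ := hDn
      exact (Finset.disjoint_left.mp hd (hDl hx)) (hD hx)
    have hnl' : ∀ D : Finset α, D ⊆ l.leaves → D.Nonempty → ¬ D ⊆ r.leaves := by
      intro D hD hDn hDl
      obtain ⟨x, hx⟩ := hDn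
      exact (Finset.disjoint_left.mp hd (hD hx)) (hDl hx)
    have htop : (l.leaves ∪ r.leaves).card = l.leaves.card + r.leaves.card :=
      Finset.card_union_of_disjoint hd
    have hL : l.leaves ∈ (node l r).clusters := by
      simp only [clusters, Finset.mem_insert, Finset.mem_union]
      exact Or.inr (Or.inl (leaves_mem l))
    have hX : l.leaves ∪ r.leaves ∈ (node l r).clusters := by
      simp [clusters]
    have hsub : l.leaves ⊂ l.leaves ∪ r.leaves := by
      refine Finset.ssubset_iff_subset_ne.mpr ⟨Finset.subset_union_left, ?_⟩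
      intro he
      have h1 : r.leaves ⊆ l.leaves := by rw [he]; exact Finset.subset_union_right
      exact hnl r.leaves (le_refl _) hrn h1
    have h1 := h _ hX _ hL hsub (by
      intro D hD hD1 hD2
      simp only [clusters, Finset.mem_insert, Finset.mem_union] at hD
      rcases hD with rfl | hD | hD
      · exact Or.inr rfl
      · left; exact le_antisymm (clusters_sub l D hD) hD1
      · exfalso
        exact hnl' l.leaves (le_refl _) hln (hD1.trans (clusters_sub r D hD)))
    rw [htop] at h1
    refine ⟨by omega, by omega, ihl hvl ?_, ihr hvr ?_⟩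
    · intro A hA B hB hBA hcov
      refine h A (by simp [clusters, hA]) B (by simp [clusters, hB]) hBA ?_
      intro D hD hD1 hD2
      simp only [clusters, Finset.mem_insert, Finset.mem_union] at hD
      rcases hD with rfl | hD | hD
      · exfalso
        have : r.leaves ⊆ l.leaves :=
          (Finset.subset_union_right.trans hD2).trans (clusters_sub l A hA)
        exact hnl r.leaves (le_refl _) hrn this
      · exact hcov D hD hD1 hD2
      · exfalso
        exact hnl D (clusters_sub r D hD) (clusters_nonempty r D hD)
          (hD2.trans (clusters_sub l A hA))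
    · intro A hA B hB hBA hcov
      refine h A (by simp [clusters, hA]) B (by simp [clusters, hB]) hBA ?_
      intro D hD hD1 hD2
      simp only [clusters, Finset.mem_insert, Finset.mem_union] at hD
      rcases hD with rfl | hD | hD
      · exfalso
        have : l.leaves ⊆ r.leaves :=
          (Finset.subset_union_left.trans hD2).trans (clusters_sub r A hA)
        exact hnl' l.leaves (le_refl _) hln this
      · exfalso
        exact hnl' D (clusters_sub l D hD) (clusters_nonempty l D hD)
          (hD2.trans (clusters_sub r A hA))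
      · exact hcov D hD hD1 hD2

/-- hierarchies on a ground set -/
structure Hier (X : Finset α) (T : Finset (Finset α)) : Prop where
  ne : ∀ A ∈ T, A.Nonempty
  sub : ∀ A ∈ T, A ⊆ X
  top : X ∈ T
  sing : ∀ x ∈ X, {x} ∈ T
  lam : ∀ A ∈ T, ∀ B ∈ T, A ⊆ B ∨ B ⊆ A ∨ Disjoint A B
  spl : ∀ A ∈ T, 2 ≤ A.card → ∃ B ∈ T, ∃ D ∈ T, Disjoint B D ∧ B ∪ D = A

lemma Hier.restrict {X : Finset α} {T : Finset (Finset α)} (h : Hier X T) {B : Finset α}
    (hB : B ∈ T) : Hier B (T.filter (· ⊆ B)) where
  ne := fun A hA => h.ne A (Finset.mem_filter.mp hA).1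
  sub := fun A hA => (Finset.mem_filter.mp hA).2
  top := Finset.mem_filter.mpr ⟨hB, le_refl _⟩
  sing := fun x hx => Finset.mem_filter.mpr
    ⟨h.sing x (h.sub B hB hx), Finset.singleton_subset_iff.mpr hx⟩
  lam := fun A hA C hC => h.lam A (Finset.mem_filter.mp hA).1 C (Finset.mem_filter.mp hC).1
  spl := by
    intro A hA h2
    obtain ⟨hA1, hA2⟩ := Finset.mem_filter.mp hA
    obtain ⟨C, hC, D, hD, hd, hu⟩ := h.spl A hA1 h2
    refine ⟨C, Finset.mem_filter.mpr ⟨hC, ?_⟩, D, Finset.mem_filter.mpr ⟨hD, ?_⟩, hd, hu⟩
    · exact (hu ▸ Finset.subset_union_left : C ⊆ A).trans hA2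
    · exact (hu ▸ Finset.subset_union_right : D ⊆ A).trans hA2

lemma exists_tree : ∀ (n : ℕ) (X : Finset α) (T : Finset (Finset α)), X.card = n →
    Hier X T → ∃ t : LT α, t.valid ∧ t.leaves = X ∧ t.clusters = T := by
  intro n
  induction n using Nat.strong_induction_on with
  | _ n ih =>
    intro X T hn h
    have hXne := h.ne X h.top
    have hpos : 0 < X.card := Finset.card_pos.mpr hXne
    rcases Nat.lt_or_ge X.card 2 with h1 | h2
    · obtain ⟨x, hx⟩ := Finset.card_eq_one.mp (by omega : X.card = 1)
      refine ⟨leaf x, trivial, hx.symm, ?_⟩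
      ext A
      simp only [clusters, Finset.mem_singleton]
      constructor
      · rintro rfl; exact hx ▸ h.top
      · intro hA
        have h3 := h.sub A hA
        rw [hx] at h3
        rcases Finset.subset_singleton_iff.mp h3 with h4 | h4
        · exact absurd (h.ne A hA) (by rw [h4]; exact Finset.not_nonempty_empty)
        · exact h4
    · obtain ⟨C, hC, D, hD, hd, hu⟩ := h.spl X h.top h2
      have hCn := h.ne C hC
      have hDn := h.ne D hD
      have hcard : C.card + D.card = X.card := by
        rw [← hu, Finset.card_union_of_disjoint hd]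
      have hCp := Finset.card_pos.mpr hCn
      have hDp := Finset.card_pos.mpr hDn
      obtain ⟨t1, hv1, hl1, hc1⟩ := ih C.card (by omega) C _ rfl (h.restrict hC)
      obtain ⟨t2, hv2, hl2, hc2⟩ := ih D.card (by omega) D _ rfl (h.restrict hD)
      refine ⟨node t1 t2, ⟨by rw [hl1, hl2]; exact hd, hv1, hv2⟩, ?_, ?_⟩
      · simp only [leaves]; rw [hl1, hl2, hu]
      · ext A
        simp only [clusters, Finset.mem_insert, Finset.mem_union]
        rw [hl1, hl2, hu, hc1, hc2, Finset.mem_filter, Finset.mem_filter]
        constructor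
        · rintro (rfl | hA | hA)
          · exact h.top
          · exact hA.1
          · exact hA.1
        · intro hA
          rcases h.lam A hA C hC with h3 | h3 | h3
          · exact Or.inr (Or.inl ⟨hA, h3⟩)
          · rcases h.lam A hA D hD with h4 | h4 | h4
            · exact Or.inr (Or.inr ⟨hA, h4⟩)
            · left
              apply le_antisymm (h.sub A hA)
              rw [← hu]; exact Finset.union_subset h3 h4
            · right; left
              refine ⟨hA, ?_⟩
              intro x hx
              have h5 := h.sub A hA hx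
              rw [← hu, Finset.mem_union] at h5
              rcases h5 with h5 | h5
              · exact h5
              · exact absurd h5 (Finset.disjoint_left.mp h4 hx)
          · right; right
            refine ⟨hA, ?_⟩
            intro x hx
            have h5 := h.sub A hA hx
            rw [← hu, Finset.mem_union] at h5
            rcases h5 with h5 | h5
            · exact absurd h5 (Finset.disjoint_left.mp h3 hx)
            · exact h5

lemma card_leaves_node {l r : LT α} (hd : Disjoint l.leaves r.leaves) :
    (node l r).leaves.card = l.leaves.card + r.leaves.card := by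
  simp only [leaves]; exact Finset.card_union_of_disjoint hd

/-- two labelled even trees of the same size are isomorphic -/
def Iso (t1 : LT α) (t2 : LT β) : Prop :=
  ∃ f : α → β, Set.InjOn f t1.leaves ∧ t1.leaves.image f = t2.leaves ∧
    ∀ B : Finset α, B ⊆ t1.leaves → (B ∈ t1.clusters ↔ B.image f ∈ t2.clusters)

lemma iso_swap {t1 : LT α} {l r : LT β} (h : Iso t1 (node l r)) : Iso t1 (node r l) := by
  obtain ⟨f, h1, h2, h3⟩ := h
  refine ⟨f, h1, ?_, ?_⟩
  · rw [h2]; simp only [leaves]; exact Finset.union_comm _ _
  · intro B hB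
    rw [h3 B hB]
    simp only [clusters, Finset.mem_insert, Finset.mem_union]
    rw [Finset.union_comm r.leaves l.leaves]
    tauto

lemma iso_node {l1 r1 : LT α} {l2 r2 : LT β} (hd1 : Disjoint l1.leaves r1.leaves)
    (hd2 : Disjoint l2.leaves r2.leaves) (hl : Iso l1 l2) (hr : Iso r1 r2) :
    Iso (node l1 r1) (node l2 r2) := by
  obtain ⟨f, hf1, hf2, hf3⟩ := hl
  obtain ⟨g, hg1, hg2, hg3⟩ := hr
  let F : α → β := fun x => if x ∈ l1.leaves then f x else g x
  have Fl : ∀ x ∈ l1.leaves, F x = f x := fun x hx => by simp [F, hx]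
  have Fr : ∀ x ∈ r1.leaves, F x = g x := fun x hx => by
    have : x ∉ l1.leaves := fun h => Finset.disjoint_left.mp hd1 h hx
    simp [F, this]
  have iml : ∀ B : Finset α, B ⊆ l1.leaves → B.image F = B.image f := fun B hB =>
    Finset.image_congr (fun x hx => Fl x (hB hx))
  have imr : ∀ B : Finset α, B ⊆ r1.leaves → B.image F = B.image g := fun B hB =>
    Finset.image_congr (fun x hx => Fr x (hB hx))
  have ml : ∀ x ∈ l1.leaves, F x ∈ l2.leaves := fun x hx => by
    rw [Fl x hx, ← hf2]; exact Finset.mem_image_of_mem f hx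
  have mr : ∀ x ∈ r1.leaves, F x ∈ r2.leaves := fun x hx => by
    rw [Fr x hx, ← hg2]; exact Finset.mem_image_of_mem g hx
  have hinj : Set.InjOn F (node l1 r1).leaves := by
    intro x hx y hy hxy
    simp only [leaves, Finset.coe_union, Set.mem_union, Finset.mem_coe] at hx hy
    rcases hx with hx | hx <;> rcases hy with hy | hy
    · exact hf1 hx hy (by rw [← Fl x hx, ← Fl y hy]; exact hxy)
    · exfalso
      exact Finset.disjoint_left.mp hd2 (ml x hx) (hxy ▸ mr y hy)
    · exfalso
      exact Finset.disjoint_left.mp hd2 (ml y hy) (hxy ▸ mr x hx)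
    · exact hg1 hx hy (by rw [← Fr x hx, ← Fr y hy]; exact hxy)
  have himg : (node l1 r1).leaves.image F = (node l2 r2).leaves := by
    simp only [leaves]
    rw [Finset.image_union, iml _ (le_refl _), imr _ (le_refl _), hf2, hg2]
  refine ⟨F, hinj, himg, ?_⟩
  intro B hB
  simp only [leaves] at hB
  simp only [clusters, Finset.mem_insert, Finset.mem_union]
  constructor
  · rintro (rfl | hB1 | hB1)
    · left
      have := himg; simp only [leaves] at this; exact this
    · right; left
      have h1 := clusters_sub l1 B hB1
      rw [iml B h1]; exact (hf3 B h1).mp hB1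
    · right; right
      have h1 := clusters_sub r1 B hB1
      rw [imr B h1]; exact (hg3 B h1).mp hB1
  · rintro (h1 | h1 | h1)
    · left
      apply le_antisymm hB
      intro x hx
      have h2 : F x ∈ l2.leaves ∪ r2.leaves := by
        rcases Finset.mem_union.mp hx with h | h
        · exact Finset.mem_union_left _ (ml x h)
        · exact Finset.mem_union_right _ (mr x h)
      rw [← h1] at h2
      obtain ⟨y, hy, hxy⟩ := Finset.mem_image.mp h2
      have : y = x := hinj (by simpa [leaves] using hB hy) (by simpa [leaves] using hx) hxy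
      exact this ▸ hy
    · right; left
      have h2 : B ⊆ l1.leaves := by
        intro x hx
        rcases Finset.mem_union.mp (hB hx) with h | h
        · exact h
        · exfalso
          have h3 := clusters_sub l2 _ h1 (Finset.mem_image_of_mem F hx)
          exact Finset.disjoint_left.mp hd2 h3 (mr x h)
      rw [iml B h2] at h1
      exact (hf3 B h2).mpr h1
    · right; right
      have h2 : B ⊆ r1.leaves := by
        intro x hx
        rcases Finset.mem_union.mp (hB hx) with h | h
        · exfalso
          have h3 := clusters_sub r2 _ h1 (Finset.mem_image_of_mem F hx)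
          exact Finset.disjoint_left.mp hd2 (ml x h) h3
        · exact h
      rw [imr B h2] at h1
      exact (hg3 B h2).mpr h1

lemma iso_of_even : ∀ (t1 : LT α) (t2 : LT β), t1.valid → t2.valid → t1.evT → t2.evT →
    t1.leaves.card = t2.leaves.card → Iso t1 t2 := by
  intro t1
  induction t1 with
  | leaf a =>
    intro t2 _ hv2 _ _ hc
    cases t2 with
    | leaf b =>
      refine ⟨fun _ => b, ?_, ?_, ?_⟩
      · intro x hx y hy _
        simp only [leaves, Finset.coe_singleton, Set.mem_singleton_iff] at hx hy
        rw [hx, hy]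
      · simp [leaves]
      · intro B hB
        simp only [leaves] at hB
        simp only [clusters, Finset.mem_singleton]
        rcases Finset.subset_singleton_iff.mp hB with h | h
        · subst h; simp
        · subst h; simp
    | node l2 r2 =>
      exfalso
      have h1 := Finset.card_pos.mpr (leaves_nonempty l2)
      have h2 := Finset.card_pos.mpr (leaves_nonempty r2)
      rw [card_leaves_node hv2.1] at hc
      simp only [leaves, Finset.card_singleton] at hc
      omega
  | node l1 r1 ihl ihr =>
    intro t2 hv1 hv2 he1 he2 hc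
    cases t2 with
    | leaf b =>
      exfalso
      have h1 := Finset.card_pos.mpr (leaves_nonempty l1)
      have h2 := Finset.card_pos.mpr (leaves_nonempty r1)
      rw [card_leaves_node hv1.1] at hc
      simp only [leaves, Finset.card_singleton] at hc
      omega
    | node l2 r2 =>
      rw [card_leaves_node hv1.1, card_leaves_node hv2.1] at hc
      obtain ⟨a1, a2, a3, a4⟩ := he1
      obtain ⟨b1, b2, b3, b4⟩ := he2
      have : (l1.leaves.card = l2.leaves.card ∧ r1.leaves.card = r2.leaves.card) ∨
          (l1.leaves.card = r2.leaves.card ∧ r1.leaves.card = l2.leaves.card) := by omega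
      rcases this with ⟨h1, h2⟩ | ⟨h1, h2⟩
      · exact iso_node hv1.1 hv2.1 (ihl l2 hv1.2.1 hv2.2.1 a3 b3 h1)
          (ihr r2 hv1.2.2 hv2.2.2 a4 b4 h2)
      · exact iso_swap (iso_node hv1.1 hv2.1.symm (ihl r2 hv1.2.1 hv2.2.2 a3 b4 h1)
          (ihr l2 hv1.2.2 hv2.2.1 a4 b3 h2))

/-! ### counting -/

open Classical in
/-- the leaf sets of size `k` inducing an even tree -/
noncomputable def CS (t : LT α) (k : ℕ) : Finset (Finset α) :=
  (t.leaves.powersetCard k).filter (fun L => (t.restr L).evT)

lemma mem_CS {t : LT α} {k : ℕ} {L : Finset α} :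
    L ∈ t.CS k ↔ L ⊆ t.leaves ∧ L.card = k ∧ (t.restr L).evT := by
  simp only [CS, Finset.mem_filter, Finset.mem_powersetCard, and_assoc]

lemma restr_congr (t : LT α) {L L' : Finset α} (h : L ∩ t.leaves = L' ∩ t.leaves) :
    t.restr L = t.restr L' := by
  induction t with
  | leaf a => rfl
  | node l r ihl ihr =>
    have h1 : L ∩ l.leaves = L' ∩ l.leaves := by
      ext x
      have := Finset.ext_iff.mp h x
      simp only [leaves, Finset.mem_inter, Finset.mem_union] at this ⊢
      tauto
    have h2 : L ∩ r.leaves = L' ∩ r.leaves := by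
      ext x
      have := Finset.ext_iff.mp h x
      simp only [leaves, Finset.mem_inter, Finset.mem_union] at this ⊢
      tauto
    simp only [restr]
    rw [h1, h2, ihl h1, ihr h2]

lemma CS_leaf (a : α) (k : ℕ) (hk : 1 ≤ k) : ((leaf a).CS k).card = if k = 1 then 1 else 0 := by
  split_ifs with h
  · subst h
    rw [Finset.card_eq_one]
    refine ⟨{a}, ?_⟩
    ext L
    rw [mem_CS]
    simp only [leaves, restr, evT, and_true, Finset.mem_singleton]
    constructor
    · rintro ⟨h1, h2⟩
      rcases Finset.subset_singleton_iff.mp h1 with h | h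
      · subst h; simp at h2
      · exact h
    · rintro rfl; simp
  · rw [Finset.card_eq_zero, Finset.eq_empty_iff_forall_notMem]
    intro L hL
    rw [mem_CS] at hL
    have := Finset.card_le_card hL.1
    simp only [leaves, Finset.card_singleton] at this
    omega

/-- split leaf sets with prescribed sizes -/
noncomputable def PS (l r : LT α) (i j : ℕ) : Finset (Finset α) :=
  ((l.CS i) ×ˢ (r.CS j)).image (fun p => p.1 ∪ p.2)

lemma inter_left {l r : LT α} (hd : Disjoint l.leaves r.leaves) {X Y : Finset α}
    (hX : X ⊆ l.leaves) (hY : Y ⊆ r.leaves) : (X ∪ Y) ∩ l.leaves = X := by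
  ext x
  simp only [Finset.mem_inter, Finset.mem_union]
  constructor
  · rintro ⟨h1 | h1, h2⟩
    · exact h1
    · exact absurd (hY h1) (Finset.disjoint_left.mp hd h2)
  · intro h; exact ⟨Or.inl h, hX h⟩

lemma inter_right {l r : LT α} (hd : Disjoint l.leaves r.leaves) {X Y : Finset α}
    (hX : X ⊆ l.leaves) (hY : Y ⊆ r.leaves) : (X ∪ Y) ∩ r.leaves = Y := by
  rw [Finset.union_comm]; exact inter_left hd.symm hY hX

lemma card_PS {l r : LT α} (hd : Disjoint l.leaves r.leaves) (i j : ℕ) :
    (PS l r i j).card = (l.CS i).card * (r.CS j).card := by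
  unfold PS
  rw [Finset.card_image_of_injOn, Finset.card_product]
  intro p hp q hq hpq
  simp only [Finset.coe_product, Set.mem_prod, Finset.mem_coe, mem_CS] at hp hq
  simp only at hpq
  have h1 := inter_left hd hp.1.1 hp.2.1
  have h2 := inter_left hd hq.1.1 hq.2.1
  have h3 := inter_right hd hp.1.1 hp.2.1
  have h4 := inter_right hd hq.1.1 hq.2.1
  rw [hpq] at h1 h3
  exact Prod.ext (h1.symm.trans h2) (h3.symm.trans h4)

lemma mem_PS {l r : LT α} (hd : Disjoint l.leaves r.leaves) {i j : ℕ} {L : Finset α} :
    L ∈ PS l r i j ↔ L ⊆ l.leaves ∪ r.leaves ∧ (L ∩ l.leaves).card = i ∧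
      (L ∩ r.leaves).card = j ∧ (l.restr L).evT ∧ (r.restr L).evT := by
  unfold PS
  simp only [Finset.mem_image, Finset.mem_product, mem_CS, Prod.exists]
  constructor
  · rintro ⟨X, Y, ⟨⟨h1, h2, h3⟩, ⟨h4, h5, h6⟩⟩, rfl⟩
    have e1 := inter_left hd h1 h4
    have e2 := inter_right hd h1 h4
    refine ⟨Finset.union_subset_union h1 h4, by rw [e1]; exact h2, by rw [e2]; exact h5, ?_, ?_⟩
    · rw [restr_congr l (L' := X)]
      · exact h3
      · rw [e1]; exact (Finset.inter_eq_left.mpr h1).symm
    · rw [restr_congr r (L' := Y)]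
      · exact h6
      · rw [e2]; exact (Finset.inter_eq_left.mpr h4).symm
  · rintro ⟨h1, h2, h3, h4, h5⟩
    refine ⟨L ∩ l.leaves, L ∩ r.leaves, ⟨⟨Finset.inter_subset_right, h2, ?_⟩,
      ⟨Finset.inter_subset_right, h3, ?_⟩⟩, ?_⟩
    · rw [restr_congr l (L' := L)]
      · exact h4
      · rw [Finset.inter_assoc, Finset.inter_self]
    · rw [restr_congr r (L' := L)]
      · exact h5
      · rw [Finset.inter_assoc, Finset.inter_self]
    · rw [← Finset.inter_union_distrib_left]; exact Finset.inter_eq_left.mpr h1

/-- the split part -/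
noncomputable def MS (l r : LT α) (k : ℕ) : Finset (Finset α) :=
  if k ≤ 1 then ∅ else if k % 2 = 0 then PS l r (k/2) (k/2)
  else PS l r (k/2) (k/2+1) ∪ PS l r (k/2+1) (k/2)

lemma mem_MS {l r : LT α} (hd : Disjoint l.leaves r.leaves) {k : ℕ} {L : Finset α} :
    L ∈ MS l r k ↔ L ⊆ l.leaves ∪ r.leaves ∧ L.card = k ∧ (L ∩ l.leaves).Nonempty ∧
      (L ∩ r.leaves).Nonempty ∧ (L ∩ l.leaves).card ≤ (L ∩ r.leaves).card + 1 ∧
      (L ∩ r.leaves).card ≤ (L ∩ l.leaves).card + 1 ∧ (l.restr L).evT ∧ (r.restr L).evT := by
  have hc : L ⊆ l.leaves ∪ r.leaves → L.card = (L ∩ l.leaves).card + (L ∩ r.leaves).card := by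
    intro h
    rw [← Finset.card_union_of_disjoint
      (hd.mono Finset.inter_subset_right Finset.inter_subset_right),
      ← Finset.inter_union_distrib_left, Finset.inter_eq_left.mpr h]
  unfold MS
  split_ifs with h1 h2
  · simp only [Finset.notMem_empty, false_iff]
    rintro ⟨a1, a2, a3, a4, -⟩
    have := hc a1
    have := Finset.card_pos.mpr a3
    have := Finset.card_pos.mpr a4
    omega
  · rw [mem_PS hd]
    constructor
    · rintro ⟨a1, a2, a3, a4, a5⟩
      have := hc a1
      exact ⟨a1, by omega, Finset.card_pos.mp (by omega), Finset.card_pos.mp (by omega),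
        by omega, by omega, a4, a5⟩
    · rintro ⟨a1, a2, a3, a4, a5, a6, a7, a8⟩
      have := hc a1
      exact ⟨a1, by omega, by omega, a7, a8⟩
  · rw [Finset.mem_union, mem_PS hd, mem_PS hd]
    constructor
    · rintro (⟨a1, a2, a3, a4, a5⟩ | ⟨a1, a2, a3, a4, a5⟩)
      · have := hc a1
        exact ⟨a1, by omega, Finset.card_pos.mp (by omega), Finset.card_pos.mp (by omega),
          by omega, by omega, a4, a5⟩
      · have := hc a1
        exact ⟨a1, by omega, Finset.card_pos.mp (by omega), Finset.card_pos.mp (by omega),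
          by omega, by omega, a4, a5⟩
    · rintro ⟨a1, a2, a3, a4, a5, a6, a7, a8⟩
      have := hc a1
      rcases Nat.lt_or_ge (L ∩ l.leaves).card (L ∩ r.leaves).card with h | h
      · left; exact ⟨a1, by omega, by omega, a7, a8⟩
      · right; exact ⟨a1, by omega, by omega, a7, a8⟩

lemma card_MS {l r : LT α} (hd : Disjoint l.leaves r.leaves) (k : ℕ) :
    ((MS l r k).card : ℝ) = SP k (fun i => ((l.CS i).card : ℝ)) (fun i => ((r.CS i).card : ℝ)) := by
  unfold MS SP
  split_ifs with h1 h2
  · simp
  · rw [card_PS hd]; push_cast; rfl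
  · rw [Finset.card_union_of_disjoint, card_PS hd, card_PS hd]
    · push_cast; rfl
    · rw [Finset.disjoint_left]
      intro L hL hL'
      rw [mem_PS hd] at hL hL'
      omega

lemma CS_node {l r : LT α} (hd : Disjoint l.leaves r.leaves) {k : ℕ} (hk : 1 ≤ k) :
    (((node l r).CS k).card : ℝ) = (l.CS k).card + (r.CS k).card
      + SP k (fun i => ((l.CS i).card : ℝ)) (fun i => ((r.CS i).card : ℝ)) := by
  rw [← card_MS hd]
  have hset : (node l r).CS k = (l.CS k ∪ r.CS k) ∪ MS l r k := by
    ext L
    rw [Finset.mem_union, Finset.mem_union, mem_MS hd]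
    simp only [mem_CS]
    constructor
    · rintro ⟨h1, h2, h3⟩
      simp only [leaves] at h1
      simp only [restr] at h3
      by_cases c1 : L ∩ l.leaves = ∅
      · left; right
        rw [if_pos c1] at h3
        refine ⟨?_, h2, h3⟩
        intro x hx
        rcases Finset.mem_union.mp (h1 hx) with h | h
        · exact absurd (c1 ▸ Finset.mem_inter.mpr ⟨hx, h⟩) (Finset.notMem_empty x)
        · exact h
      · rw [if_neg c1] at h3
        by_cases c2 : L ∩ r.leaves = ∅
        · left; left
          rw [if_pos c2] at h3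
          refine ⟨?_, h2, h3⟩
          intro x hx
          rcases Finset.mem_union.mp (h1 hx) with h | h
          · exact h
          · exact absurd (c2 ▸ Finset.mem_inter.mpr ⟨hx, h⟩) (Finset.notMem_empty x)
        · rw [if_neg c2] at h3
          have c1' := Finset.nonempty_iff_ne_empty.mpr c1
          have c2' := Finset.nonempty_iff_ne_empty.mpr c2
          simp only [evT] at h3
          rw [restr_leaves l L c1', restr_leaves r L c2'] at h3
          right
          exact ⟨h1, h2, c1', c2', h3.1, h3.2.1, h3.2.2.1, h3.2.2.2⟩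
    · rintro ((⟨h1, h2, h3⟩ | ⟨h1, h2, h3⟩) | ⟨h1, h2, h3, h4, h5, h6, h7, h8⟩)
      · refine ⟨h1.trans Finset.subset_union_left, h2, ?_⟩
        have hne : L.Nonempty := Finset.card_pos.mp (by omega)
        have c1 : ¬ (L ∩ l.leaves = ∅) := by
          rw [Finset.inter_eq_left.mpr h1]; exact Finset.nonempty_iff_ne_empty.mp hne
        have c2 : L ∩ r.leaves = ∅ := by
          apply Finset.disjoint_iff_inter_eq_empty.mp
          exact hd.mono_left h1
        simp only [restr]
        rw [if_neg c1, if_pos c2]; exact h3
      · refine ⟨h1.trans Finset.subset_union_right, h2, ?_⟩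
        have c2 : L ∩ l.leaves = ∅ := by
          apply Finset.disjoint_iff_inter_eq_empty.mp
          exact hd.symm.mono_left h1
        simp only [restr]
        rw [if_pos c2]; exact h3
      · refine ⟨h1, h2, ?_⟩
        simp only [restr]
        rw [if_neg (Finset.nonempty_iff_ne_empty.mp h3), if_neg (Finset.nonempty_iff_ne_empty.mp h4)]
        simp only [evT]
        rw [restr_leaves l L h3, restr_leaves r L h4]
        exact ⟨h5, h6, h7, h8⟩
  have d1 : Disjoint (l.CS k) (r.CS k) := by
    rw [Finset.disjoint_left]
    intro L h1 h2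
    rw [mem_CS] at h1 h2
    have hne : L.Nonempty := Finset.card_pos.mp (by omega)
    obtain ⟨x, hx⟩ := hne
    exact Finset.disjoint_left.mp hd (h1.1 hx) (h2.1 hx)
  have d2 : Disjoint (l.CS k ∪ r.CS k) (MS l r k) := by
    rw [Finset.disjoint_left]
    intro L h1 h2
    rw [mem_MS hd] at h2
    obtain ⟨-, -, ⟨x, hx⟩, ⟨y, hy⟩, -⟩ := h2
    rw [Finset.mem_inter] at hx hy
    rw [Finset.mem_union, mem_CS, mem_CS] at h1
    rcases h1 with h1 | h1
    · exact Finset.disjoint_left.mp hd (h1.1 hy.1) hy.2
    · exact Finset.disjoint_left.mp hd hx.2 (h1.1 hx.1)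
  rw [hset, Finset.card_union_of_disjoint d2, Finset.card_union_of_disjoint d1]
  push_cast; ring

lemma card_CS_le (t : LT α) (hv : t.valid) : ∀ k, 1 ≤ k →
    ((t.CS k).card : ℝ) ≤ E k t.leaves.card := by
  induction t with
  | leaf a =>
    intro k hk
    rw [CS_leaf a k hk]
    simp only [leaves, Finset.card_singleton]
    split_ifs with h
    · subst h; rw [E_one]
    · push_cast; exact E_nonneg _ _
  | node l r ihl ihr =>
    intro k hk
    obtain ⟨hd, hvl, hvr⟩ := hv
    rw [CS_node hd hk, card_leaves_node hd]
    refine le_trans ?_ (N_le _ l.leaves.card r.leaves.card k rfl hk)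
    unfold N
    have h1 := ihl hvl k hk
    have h2 := ihr hvr k hk
    have h3 : SP k (fun i => ((l.CS i).card : ℝ)) (fun i => ((r.CS i).card : ℝ))
        ≤ SP k (fun i => E i l.leaves.card) (fun i => E i r.leaves.card) :=
      SP_mono (ihl hvl) (ihr hvr) (fun _ _ => Nat.cast_nonneg _) (fun _ _ => Nat.cast_nonneg _)
    linarith

lemma card_CS_eq (t : LT α) (hv : t.valid) (he : t.evT) : ∀ k, 1 ≤ k →
    ((t.CS k).card : ℝ) = E k t.leaves.card := by
  induction t with
  | leaf a =>
    intro k hk
    rw [CS_leaf a k hk]
    simp only [leaves, Finset.card_singleton]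
    split_ifs with h
    · subst h; rw [E_one]
    · rw [E_at_one h]; norm_num
  | node l r ihl ihr =>
    intro k hk
    obtain ⟨hd, hvl, hvr⟩ := hv
    obtain ⟨e1, e2, e3, e4⟩ := he
    rw [CS_node hd hk, card_leaves_node hd]
    have f1 := ihl hvl e3
    have f2 := ihr hvr e4
    have h3 : SP k (fun i => ((l.CS i).card : ℝ)) (fun i => ((r.CS i).card : ℝ))
        = SP k (fun i => E i l.leaves.card) (fun i => E i r.leaves.card) := by
      apply le_antisymm
      · exact SP_mono (fun i hi => (f1 i hi).le) (fun i hi => (f2 i hi).le)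
          (fun _ _ => Nat.cast_nonneg _) (fun _ _ => Nat.cast_nonneg _)
      · exact SP_mono (fun i hi => (f1 i hi).ge) (fun i hi => (f2 i hi).ge)
          (fun _ _ => E_nonneg _ _) (fun _ _ => E_nonneg _ _)
    rw [h3, f1 k hk, f2 k hk]
    have h4 : E k l.leaves.card + E k r.leaves.card
        + SP k (fun i => E i l.leaves.card) (fun i => E i r.leaves.card)
        = N l.leaves.card r.leaves.card k := rfl
    rw [h4]
    rcases lt_trichotomy l.leaves.card r.leaves.card with h5 | h5 | h5
    · have h6 : r.leaves.card = l.leaves.card + 1 := by omega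
      rw [N_comm, h6, N_eq_odd hk]; congr 1; omega
    · rw [h5, N_eq_even hk]; congr 1; omega
    · have h6 : l.leaves.card = r.leaves.card + 1 := by omega
      rw [h6, N_eq_odd hk]; congr 1; omega

end LT

end Pool.Agent.H323.Even
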