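import Mathlib
import Pool.Agent.H323.EvenTree

set_option autoImplicit false

namespace Pool.Agent.H323.Even

open Pool.Agent.H323.Even.LT

variable {k n : ℕ}

/-- hypothesis: binary hierarchy on `Fin n` -/
def HH (T : Finset (Finset (Fin n))) : Prop :=
  (∀ A ∈ T, A.Nonempty) ∧ (Finset.univ ∈ T) ∧ (∀ i : Fin n, ({i} : Finset (Fin n)) ∈ T) ∧
        (∀ A ∈ T, ∀ B ∈ T, A ⊆ B ∨ B ⊆ A ∨ Disjoint A B) ∧
        (∀ A ∈ T, 2 ≤ A.card → ∃ B ∈ T, ∃ D ∈ T, Disjoint B D ∧ B ∪ D = A)

lemma HH.tree {T : Finset (Finset (Fin n))} (h : HH T) :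
    ∃ t : LT (Fin n), t.valid ∧ t.leaves = Finset.univ ∧ t.clusters = T := by
  obtain ⟨h1, h2, h3, h4, h5⟩ := h
  exact exists_tree _ Finset.univ T rfl
    ⟨h1, fun A _ => Finset.subset_univ A, h2, fun x _ => h3 x, h4, h5⟩

lemma set_eq (hk : 1 ≤ k) (tF : LT (Fin k)) (t : LT (Fin n)) (hvF : tF.valid)
    (hlF : tF.leaves = Finset.univ) (hv : t.valid) (hl : t.leaves = Finset.univ)
    (hF : IsEv tF.clusters) :
    {L : Finset (Fin n) | ∃ f : Fin k → Fin n, Function.Injective f ∧
          Finset.univ.image f = L ∧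
          ∀ B : Finset (Fin k), B ∈ tF.clusters ↔ (B.Nonempty ∧ ∃ A ∈ t.clusters, B.image f = A ∩ L)}
      = (t.CS k : Set (Finset (Fin n))) := by
  ext L
  simp only [Set.mem_setOf_eq, Finset.mem_coe, mem_CS]
  constructor
  · rintro ⟨f, hf, hL, hB⟩
    have hcard : L.card = k := by
      rw [← hL, Finset.card_image_of_injective _ hf]; simp
    have hLn : L.Nonempty := Finset.card_pos.mp (by omega)
    have hLn' : (L ∩ t.leaves).Nonempty := by rw [hl, Finset.inter_univ]; exact hLn
    refine ⟨by rw [hl]; exact Finset.subset_univ L, hcard, ?_⟩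
    apply evT_of_isEv _ (restr_valid t L hLn' hv)
    intro A' hA' B' hB' hlt hcov
    -- pull back
    have pull : ∀ C ∈ (t.restr L).clusters, ∃ C0 ∈ tF.clusters, C0.image f = C := by
      intro C hC
      rw [restr_clusters t L hLn'] at hC
      obtain ⟨hCn, A, hA, rfl⟩ := hC
      have hsub : A ∩ L ⊆ Finset.univ.image f := by rw [hL]; exact Finset.inter_subset_right
      obtain ⟨C0, -, hC0⟩ := Finset.subset_image_iff.mp hsub
      refine ⟨C0, ?_, hC0⟩
      rw [hB]
      refine ⟨?_, A, hA, hC0⟩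
      rw [← hC0] at hCn
      exact Finset.image_nonempty.mp hCn
    have push : ∀ C0 ∈ tF.clusters, C0.image f ∈ (t.restr L).clusters := by
      intro C0 hC0
      rw [restr_clusters t L hLn']
      obtain ⟨h1, A, hA, h2⟩ := (hB C0).mp hC0
      exact ⟨h1.image f, A, hA, h2⟩
    obtain ⟨A0, hA0, rfl⟩ := pull A' hA'
    obtain ⟨B0, hB0, rfl⟩ := pull B' hB'
    have h1 := hF A0 hA0 B0 hB0 ((Finset.image_ssubset_image hf).mp hlt) (by
      intro D hD h1 h2
      rcases hcov (D.image f) (push D hD) (Finset.image_subset_image h1)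
        (Finset.image_subset_image h2) with h3 | h3
      · left; exact Finset.image_injective hf h3
      · right; exact Finset.image_injective hf h3)
    rw [Finset.card_image_of_injective _ hf, Finset.card_image_of_injective _ hf]
    exact h1
  · rintro ⟨-, hcard, hev⟩
    have hLn : L.Nonempty := Finset.card_pos.mp (by omega)
    have hLn' : (L ∩ t.leaves).Nonempty := by rw [hl, Finset.inter_univ]; exact hLn
    have hrl : (t.restr L).leaves = L := by
      rw [restr_leaves t L hLn', hl, Finset.inter_univ]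
    obtain ⟨f, hf1, hf2, hf3⟩ := iso_of_even tF (t.restr L) hvF (restr_valid t L hLn' hv)
      (evT_of_isEv tF hvF hF) hev (by rw [hrl, hlF, hcard]; simp)
    rw [hlF] at hf1 hf2 hf3
    rw [hrl] at hf2
    refine ⟨f, ?_, hf2, ?_⟩
    · intro x y hxy
      exact hf1 (by simp) (by simp) hxy
    · intro B
      rw [hf3 B (Finset.subset_univ B), restr_clusters t L hLn', Finset.image_nonempty]

theorem main (k n : ℕ) (hk : 1 ≤ k) (F : Finset (Finset (Fin k))) (E' T : Finset (Finset (Fin n)))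
    (hF : HH F) (hFe : IsEv F) (hE : HH E') (hEe : IsEv E') (hT : HH T) :
      {L : Finset (Fin n) | ∃ f : Fin k → Fin n, Function.Injective f ∧
          Finset.univ.image f = L ∧
          ∀ B : Finset (Fin k), B ∈ F ↔ (B.Nonempty ∧ ∃ A ∈ T, B.image f = A ∩ L)}.ncard
        ≤
      {L : Finset (Fin n) | ∃ f : Fin k → Fin n, Function.Injective f ∧
          Finset.univ.image f = L ∧
          ∀ B : Finset (Fin k), B ∈ F ↔ (B.Nonempty ∧ ∃ A ∈ E', B.image f = A ∩ L)}.ncard := by
  obtain ⟨tF, vF, lF, rfl⟩ := hF.tree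
  obtain ⟨tE, vE, lE, rfl⟩ := hE.tree
  obtain ⟨tT, vT, lT, rfl⟩ := hT.tree
  rw [set_eq hk tF tT vF lF vT lT hFe, set_eq hk tF tE vF lF vE lE hFe, Set.ncard_coe_finset,
    Set.ncard_coe_finset]
  have h1 := card_CS_le tT vT k hk
  have h2 := card_CS_eq tE vE (evT_of_isEv tE vE hEe) k hk
  rw [lT] at h1
  rw [lE] at h2
  rw [← h2] at h1
  exact_mod_cast h1

end Pool.Agent.H323.Even
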